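import Mathlib

/-!
Counting monochromatic progressions of block colourings: the scaling lemma.
-/

set_option autoImplicit false

namespace Pool.Agent.D0H9.BR

open Finset

/-- the pairs `(a, d)` with `d ≥ 1` and `a, a + d, …, a + (k - 1) d` in `{0, …, n - 1}` -/
def AP (k n : ℕ) : Finset (ℕ × ℕ) :=
  (range n ×ˢ range n).filter (fun p => 1 ≤ p.2 ∧ p.1 + (k - 1) * p.2 < n)

/-- the monochromatic ones -/
def monoSet {α : Type} [DecidableEq α] (k n : ℕ) (χ : ℕ → α) : Finset (ℕ × ℕ) :=
  (AP k n).filter (fun p => ∀ j < k, χ (p.1 + j * p.2) = χ p.1)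

/-- their number -/
def mono {α : Type} [DecidableEq α] (k n : ℕ) (χ : ℕ → α) : ℕ := (monoSet k n χ).card

theorem mem_AP {k n : ℕ} {p : ℕ × ℕ} :
    p ∈ AP k n ↔ (p.1 < n ∧ p.2 < n) ∧ 1 ≤ p.2 ∧ p.1 + (k - 1) * p.2 < n := by
  simp [AP]

theorem mem_monoSet {α : Type} [DecidableEq α] {k n : ℕ} {χ : ℕ → α} {p : ℕ × ℕ} :
    p ∈ monoSet k n χ ↔ ((p.1 < n ∧ p.2 < n) ∧ 1 ≤ p.2 ∧ p.1 + (k - 1) * p.2 < n) ∧
      ∀ j < k, χ (p.1 + j * p.2) = χ p.1 := by
  rw [monoSet, mem_filter, mem_AP]

theorem card_res (B L s k : ℕ) :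
    ((range (B * L)).filter (fun x => L ≤ (x + s) % L + k)).card ≤ B * k := by
  induction B with
  | zero => simp
  | succ B ih =>
    have h1 : (range ((B + 1) * L)).filter (fun x => L ≤ (x + s) % L + k) =
        (range (B * L)).filter (fun x => L ≤ (x + s) % L + k) ∪
        (Ico (B * L) (B * L + L)).filter (fun x => L ≤ (x + s) % L + k) := by
      rw [← filter_union]
      congr 1
      ext x
      simp only [mem_range, mem_union, mem_Ico, Nat.add_mul, one_mul]
      omega
    rw [h1]
    refine (card_union_le _ _).trans ?_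
    rw [Nat.add_mul, one_mul]
    refine Nat.add_le_add ih ?_
    rcases Nat.eq_zero_or_pos L with hL | hL
    · subst hL; simp
    calc _ ≤ (Ico (L - k) L).card := by
          refine card_le_card_of_injOn (fun x => (x + s) % L) ?_ ?_
          · intro x hx
            simp only [coe_filter, mem_Ico, Set.mem_ofPred_eq, coe_Ico, Set.mem_Ico] at hx ⊢
            have := Nat.mod_lt (x + s) hL
            omega
          · intro x hx y hy hxy
            simp only [coe_filter, mem_Ico, Set.mem_ofPred_eq] at hx hy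
            have h : (x + s) % L = (y + s) % L := hxy
            have h2 : x ≡ y [MOD L] := Nat.ModEq.add_right_cancel' s h
            have h3 : x % L = y % L := h2
            have hx' : x = B * L + (x - B * L) := by omega
            have hy' : y = B * L + (y - B * L) := by omega
            rw [hx', hy'] at h3
            rw [Nat.mul_add_mod_self_right, Nat.mul_add_mod_self_right,
              Nat.mod_eq_of_lt (by omega), Nat.mod_eq_of_lt (by omega)] at h3
            omega
      _ ≤ k := by
          rw [Nat.card_Ico]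
          omega

/-- the colouring by blocks of length `L` -/
def blk {α : Type} (c : ℕ → α) (L : ℕ) : ℕ → α := fun x => c (x / L)

/-- good pairs: `d ≥ 1` and no term is near the end of its block -/
def Good (k L : ℕ) (q : ℕ × ℕ) : Prop := 1 ≤ q.2 ∧ ∀ j < k, (q.1 + j * q.2) % L + k < L

instance (k L : ℕ) (q : ℕ × ℕ) : Decidable (Good k L q) := by unfold Good; infer_instance

theorem card_bad (k B L : ℕ) :
    ((range (B * L) ×ˢ range (B * L)).filter (fun q => ¬ Good k L q)).card ≤
      B * L + k * (B * L * (B * k)) := by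
  classical
  have h : (range (B * L) ×ˢ range (B * L)).filter (fun q => ¬ Good k L q) ⊆
      (range (B * L) ×ˢ {0}) ∪ (range k).biUnion (fun j =>
        (range (B * L)).biUnion (fun d =>
          ((range (B * L)).filter (fun x => L ≤ (x + j * d) % L + k)).image (fun x => (x, d)))) := by
    intro q hq
    simp only [mem_filter, mem_product, mem_range, Good, not_and, not_forall, not_lt] at hq
    simp only [mem_union, mem_product, mem_range, mem_singleton, mem_biUnion, mem_image, mem_filter]
    rcases Nat.eq_zero_or_pos q.2 with h0 | h0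
    · exact Or.inl ⟨hq.1.1, h0⟩
    · obtain ⟨j, hj, hj2⟩ := hq.2 h0
      exact Or.inr ⟨j, hj, q.2, hq.1.2, q.1, ⟨hq.1.1, hj2⟩, rfl⟩
  refine (card_le_card h).trans ((card_union_le _ _).trans ?_)
  refine Nat.add_le_add ?_ ?_
  · simp
  · refine card_biUnion_le.trans ?_
    have : ∀ j ∈ range k, ((range (B * L)).biUnion (fun d =>
          ((range (B * L)).filter (fun x => L ≤ (x + j * d) % L + k)).image
            (fun x => ((x, d) : ℕ × ℕ)))).card ≤ B * L * (B * k) := by
      intro j _
      refine card_biUnion_le.trans ?_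
      refine (sum_le_card_nsmul _ _ (B * k) ?_).trans ?_
      · intro d _
        exact card_image_le.trans (card_res B L (j * d) k)
      · simp
    refine (sum_le_card_nsmul _ _ _ this).trans ?_
    simp

theorem div_facts {t a d j : ℕ} (ht : 0 < t) :
    ∃ e, e ≤ j ∧ (a + j * d) / t = a / t + j * (d / t) + e := by
  refine ⟨(a % t + j * (d % t)) / t, ?_, ?_⟩
  · have h1 := Nat.mod_lt a ht
    have h2 := Nat.mod_lt d ht
    rw [← Nat.lt_succ_iff, Nat.div_lt_iff_lt_mul ht]
    have : j * (d % t) ≤ j * (t - 1) := Nat.mul_le_mul_left _ (by omega)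
    obtain ⟨t', rfl⟩ : ∃ t', t = t' + 1 := ⟨t - 1, by omega⟩
    simp only [Nat.add_sub_cancel] at this
    rw [Nat.succ_eq_add_one]
    nlinarith
  · have h1 := Nat.div_add_mod a t
    have h2 := Nat.div_add_mod d t
    have : a + j * d = (a % t + j * (d % t)) + t * (a / t + j * (d / t)) := by
      conv_lhs => rw [← h1, ← h2]
      ring
    rw [this, Nat.add_mul_div_left _ _ ht]
    ring

theorem good_div {k L t a d : ℕ} (ht : 0 < t) (hg : Good k L (a / t, d / t)) {j : ℕ} (hj : j < k) :
    (a + j * d) / (t * L) = (a / t + j * (d / t)) / L := by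
  obtain ⟨e, he, h⟩ := div_facts (a := a) (d := d) (j := j) ht
  rw [← Nat.div_div_eq_div_mul, h]
  have h2 := hg.2 j hj
  simp only at h2
  have hL : 0 < L := by omega
  generalize a / t + j * (d / t) = x at h2
  have h3 := Nat.div_add_mod x L
  have h4 : x + e = L * (x / L) + (x % L + e) := by omega
  rw [h4, Nat.mul_add_div hL, Nat.div_eq_of_lt (show x % L + e < L by omega), add_zero]

theorem mem_mono_good {α : Type} [DecidableEq α] {k B L t : ℕ} (hk : 0 < k) (ht : 0 < t) (c : ℕ → α)
    {p : ℕ × ℕ} (hg : Good k L (p.1 / t, p.2 / t)) :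
    p ∈ monoSet k (B * (t * L)) (blk c (t * L)) ↔
      (p.1 / t, p.2 / t) ∈ monoSet k (B * L) (blk c L) := by
  have hL : 0 < L := by
    have := hg.2 0 hk
    omega
  have hlast : p.1 + (k - 1) * p.2 < B * (t * L) ↔ p.1 / t + (k - 1) * (p.2 / t) < B * L := by
    rw [← Nat.div_lt_iff_lt_mul (Nat.mul_pos ht hL), ← Nat.div_lt_iff_lt_mul hL,
      good_div ht hg (j := k - 1) (by omega)]
  have h1 : 1 ≤ p.2 := by
    have h := hg.1
    simp only at h
    by_contra h0
    have : p.2 = 0 := by omega
    rw [this] at h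
    simp at h
  have hdt : 1 ≤ p.2 / t := hg.1
  rw [mem_monoSet, mem_monoSet]
  simp only [blk]
  have hc : (∀ j < k, c ((p.1 + j * p.2) / (t * L)) = c (p.1 / (t * L))) ↔
      (∀ j < k, c ((p.1 / t + j * (p.2 / t)) / L) = c (p.1 / t / L)) := by
    have h0 := good_div ht hg hk
    simp only [Nat.zero_mul, Nat.add_zero] at h0
    constructor
    · intro h j hj
      rw [← good_div ht hg hj, ← h0]
      exact h j hj
    · intro h j hj
      rw [good_div ht hg hj, h0]
      exact h j hj
  rw [hc]
  constructor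
  · rintro ⟨⟨⟨_, h7⟩, _, h3⟩, h4⟩
    rw [hlast] at h3
    refine ⟨⟨⟨by omega, ?_⟩, hdt, h3⟩, h4⟩
    rw [Nat.div_lt_iff_lt_mul ht]
    linarith [(by ring : B * (t * L) = B * L * t)]
  · rintro ⟨⟨⟨h5, h6⟩, _, h3⟩, h4⟩
    rw [← hlast] at h3
    refine ⟨⟨⟨by omega, ?_⟩, h1, h3⟩, h4⟩
    have := (Nat.div_lt_iff_lt_mul ht).1 h6
    linarith [(by ring : B * (t * L) = B * L * t)]

theorem card_fib (t a d : ℕ) (ht : 0 < t) (S : Finset (ℕ × ℕ)) :
    (S.filter (fun p => (p.1 / t, p.2 / t) = (a, d))).card ≤ t ^ 2 := by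
  have h : S.filter (fun p => (p.1 / t, p.2 / t) = (a, d)) ⊆
      Ico (a * t) (a * t + t) ×ˢ Ico (d * t) (d * t + t) := by
    intro p hp
    simp only [mem_filter, Prod.mk.injEq] at hp
    simp only [mem_product, mem_Ico]
    obtain ⟨_, h1, h2⟩ := hp
    have h3 := Nat.div_add_mod p.1 t
    have h4 := Nat.div_add_mod p.2 t
    have h5 := Nat.mod_lt p.1 ht
    have h6 := Nat.mod_lt p.2 ht
    rw [h1] at h3
    rw [h2] at h4
    have e1 : t * a = a * t := Nat.mul_comm _ _
    have e2 : t * d = d * t := Nat.mul_comm _ _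
    omega
  refine (card_le_card h).trans ?_
  simp [sq]

theorem card_fib_good {α : Type} [DecidableEq α] {k B L t : ℕ} (hk : 0 < k) (ht : 0 < t) (c : ℕ → α)
    {a d : ℕ} (hg : Good k L (a, d)) :
    ((monoSet k (B * (t * L)) (blk c (t * L))).filter (fun p => (p.1 / t, p.2 / t) = (a, d))).card =
      if (a, d) ∈ monoSet k (B * L) (blk c L) then t ^ 2 else 0 := by
  split_ifs with h
  · have : (monoSet k (B * (t * L)) (blk c (t * L))).filter (fun p => (p.1 / t, p.2 / t) = (a, d)) =
        Ico (a * t) (a * t + t) ×ˢ Ico (d * t) (d * t + t) := by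
      ext p
      simp only [mem_filter, Prod.mk.injEq, mem_product, mem_Ico]
      have key : (p.1 / t = a ∧ p.2 / t = d) ↔
          ((a * t ≤ p.1 ∧ p.1 < a * t + t) ∧ (d * t ≤ p.2 ∧ p.2 < d * t + t)) := by
        rw [Nat.div_eq_iff ht, Nat.div_eq_iff ht]
        constructor
        · rintro ⟨h1, h2⟩; omega
        · rintro ⟨h1, h2⟩; omega
      rw [← key]
      constructor
      · rintro ⟨_, h2⟩; exact h2
      · rintro ⟨h1, h2⟩
        refine ⟨?_, h1, h2⟩
        rw [mem_mono_good hk ht c (by rw [h1, h2]; exact hg), h1, h2]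
        exact h
    rw [this]
    simp [sq]
  · rw [card_eq_zero, filter_eq_empty_iff]
    intro p hp hpe
    apply h
    rw [← hpe, ← mem_mono_good hk ht c (by rw [hpe]; exact hg)]
    exact hp

/-- the scaling lemma -/
theorem scale {α : Type} [DecidableEq α] {k B L t : ℕ} (hk : 0 < k) (ht : 0 < t) (c : ℕ → α) :
    mono k (B * (t * L)) (blk c (t * L)) ≤
      t ^ 2 * mono k (B * L) (blk c L) + t ^ 2 * (B * L + k * (B * L * (B * k))) ∧
    t ^ 2 * mono k (B * L) (blk c L) ≤
      mono k (B * (t * L)) (blk c (t * L)) + t ^ 2 * (B * L + k * (B * L * (B * k))) := by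
  classical
  set R := range (B * L) ×ˢ range (B * L) with hR
  set S := monoSet k (B * (t * L)) (blk c (t * L)) with hS
  set T := monoSet k (B * L) (blk c L) with hT
  have hTR : T ⊆ R := by
    intro p hp
    simp only [hT, monoSet, mem_filter, mem_AP] at hp
    simp only [hR, mem_product, mem_range]
    exact hp.1.1
  have hmaps : ∀ p ∈ S, (p.1 / t, p.2 / t) ∈ R := by
    intro p hp
    simp only [hS, monoSet, mem_filter, mem_AP] at hp
    simp only [hR, mem_product, mem_range]
    have e : B * (t * L) = B * L * t := by ring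
    rw [e] at hp
    exact ⟨(Nat.div_lt_iff_lt_mul ht).2 hp.1.1.1, (Nat.div_lt_iff_lt_mul ht).2 hp.1.1.2⟩
  have h1 : mono k (B * (t * L)) (blk c (t * L)) =
      ∑ q ∈ R, (S.filter (fun p => (p.1 / t, p.2 / t) = q)).card :=
    card_eq_sum_card_fiberwise hmaps
  have h2 : t ^ 2 * mono k (B * L) (blk c L) = ∑ q ∈ R, (if q ∈ T then t ^ 2 else 0) := by
    have hf : R.filter (fun q => q ∈ T) = T := by
      ext q
      simp only [mem_filter]
      exact ⟨fun h => h.2, fun h => ⟨hTR h, h⟩⟩
    rw [← sum_filter, sum_const, smul_eq_mul, mul_comm, hf]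
    rfl
  have hbad : ∑ q ∈ R, (if Good k L q then 0 else t ^ 2) ≤
      t ^ 2 * (B * L + k * (B * L * (B * k))) := by
    have : ∑ q ∈ R, (if Good k L q then 0 else t ^ 2) =
        (R.filter (fun q => ¬ Good k L q)).card * t ^ 2 := by
      rw [← smul_eq_mul, ← sum_const, sum_filter]
      refine sum_congr rfl fun q _ => ?_
      by_cases h : Good k L q <;> simp [h]
    rw [this, mul_comm]
    exact Nat.mul_le_mul_left _ (card_bad k B L)
  constructor
  · rw [h1, h2]
    refine le_trans ?_ (Nat.add_le_add_left hbad _)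
    rw [← sum_add_distrib]
    refine sum_le_sum fun q _ => ?_
    by_cases h : Good k L q
    · rw [card_fib_good hk ht c (a := q.1) (d := q.2) h]
      simp [h, hT]
    · refine (card_fib t q.1 q.2 ht S).trans ?_
      simp [h]
  · rw [h1, h2]
    refine le_trans ?_ (Nat.add_le_add_left hbad _)
    rw [← sum_add_distrib]
    refine sum_le_sum fun q _ => ?_
    by_cases h : Good k L q
    · rw [card_fib_good hk ht c (a := q.1) (d := q.2) h]
      simp [h, hT]
    · simp only [h, if_false]
      split_ifs <;> omega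

end Pool.Agent.D0H9.BR
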