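import Mathlib
import Pool.Agent.D0H9.BR.Scale

/-!
Random block colourings: the averaging argument.
-/

set_option autoImplicit false

namespace Pool.Agent.D0H9.BR

open Finset

/-- the blocks met by the progression `p` -/
def blocks (k L : ℕ) (p : ℕ × ℕ) : Finset ℕ := (range k).image (fun j => (p.1 + j * p.2) / L)

/-- the expected number of monochromatic progressions of a random block colouring -/
noncomputable def expect {r : ℕ} (k B L : ℕ) (F : ℕ → Fin r → ℝ) : ℝ :=
  ∑ p ∈ AP k (B * L), ∑ i, ∏ b ∈ blocks k L p, F b i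

/-- extension of a colouring of `{0, …, B - 1}` -/
def ext {r B : ℕ} (i0 : Fin r) (c : Fin B → Fin r) : ℕ → Fin r :=
  fun b => if h : b < B then c ⟨b, h⟩ else i0

theorem blocks_lt {k B L : ℕ} {p : ℕ × ℕ} (hp : p ∈ AP k (B * L)) {b : ℕ}
    (hb : b ∈ blocks k L p) : b < B := by
  simp only [blocks, mem_image, mem_range] at hb
  obtain ⟨j, hj, rfl⟩ := hb
  rw [mem_AP] at hp
  have h1 : j * p.2 ≤ (k - 1) * p.2 := Nat.mul_le_mul_right _ (by omega)
  have h2 : p.1 + j * p.2 < B * L := by omega
  exact Nat.div_lt_of_lt_mul (by rw [mul_comm L B]; exact h2)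

theorem sum_weight {r B : ℕ} (F : ℕ → Fin r → ℝ) (G : ℕ → Fin r → ℝ) :
    ∑ c : Fin B → Fin r, (∏ b : Fin B, F b (c b)) * (∏ b : Fin B, G b (c b)) =
      ∏ b ∈ range B, ∑ i, F b i * G b i := by
  have h : ∀ c : Fin B → Fin r, (∏ b : Fin B, F b (c b)) * (∏ b : Fin B, G b (c b)) =
      ∏ b : Fin B, F b (c b) * G b (c b) := by
    intro c
    rw [prod_mul_distrib]
  simp_rw [h]
  have h2 := Finset.prod_univ_sum (fun _ : Fin B => (univ : Finset (Fin r)))
    (fun b i => F b i * G b i)
  rw [Fintype.piFinset_univ] at h2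
  rw [← h2, Finset.prod_range]

theorem mono_indicator {r B k L : ℕ} (hk : 0 < k) (i0 : Fin r) (c : Fin B → Fin r) {p : ℕ × ℕ}
    (hp : p ∈ AP k (B * L)) :
    (if p ∈ monoSet k (B * L) (blk (ext i0 c) L) then (1 : ℝ) else 0) =
      ∑ i, ∏ b : Fin B, (if (b : ℕ) ∈ blocks k L p ∧ c b ≠ i then (0 : ℝ) else 1) := by
  have h0 : p.1 / L ∈ blocks k L p := by
    simp only [blocks, mem_image, mem_range]
    exact ⟨0, hk, by simp⟩
  have hb0 := blocks_lt hp h0
  have hmem : p ∈ monoSet k (B * L) (blk (ext i0 c) L) ↔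
      ∀ b : Fin B, (b : ℕ) ∈ blocks k L p → c b = c ⟨p.1 / L, hb0⟩ := by
    have hp' := hp
    rw [mem_AP] at hp'
    rw [mem_monoSet]
    constructor
    · rintro ⟨_, h⟩ b hb
      simp only [blocks, mem_image, mem_range] at hb
      obtain ⟨j, hj, hjb⟩ := hb
      have := h j hj
      simp only [blk, hjb, ext, b.2, hb0, dif_pos] at this
      exact this
    · intro h
      refine ⟨hp', fun j hj => ?_⟩
      have hbj : (p.1 + j * p.2) / L ∈ blocks k L p := by
        simp only [blocks, mem_image, mem_range]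
        exact ⟨j, hj, rfl⟩
      have hlt := blocks_lt hp hbj
      have := h ⟨_, hlt⟩ hbj
      simp only [blk, ext, hlt, hb0, dif_pos]
      exact this
  have hprod : ∀ i, ∏ b : Fin B, (if (b : ℕ) ∈ blocks k L p ∧ c b ≠ i then (0 : ℝ) else 1) =
      if ∀ b : Fin B, (b : ℕ) ∈ blocks k L p → c b = i then 1 else 0 := by
    intro i
    split_ifs with h
    · refine prod_eq_one fun b _ => ?_
      rw [if_neg]
      rintro ⟨h1, h2⟩
      exact h2 (h b h1)
    · push Not at h
      obtain ⟨b, hb1, hb2⟩ := h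
      exact prod_eq_zero (mem_univ b) (by rw [if_pos ⟨hb1, hb2⟩])
  simp_rw [hprod]
  rw [sum_eq_single (c ⟨p.1 / L, hb0⟩)]
  · by_cases h : p ∈ monoSet k (B * L) (blk (ext i0 c) L)
    · rw [if_pos h, if_pos (hmem.1 h)]
    · rw [if_neg h, if_neg (fun h' => h (hmem.2 h'))]
  · intro i _ hi
    rw [if_neg]
    intro h
    exact hi (h ⟨p.1 / L, hb0⟩ h0).symm
  · intro h
    exact absurd (mem_univ _) h

theorem exists_coloring {r k B L : ℕ} (hk : 0 < k) (F : ℕ → Fin r → ℝ) (hF : ∀ b i, 0 ≤ F b i)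
    (hsum : ∀ b, ∑ i, F b i = 1) :
    ∃ c : ℕ → Fin r, (mono k (B * L) (blk c L) : ℝ) ≤ expect k B L F := by
  classical
  have hr : Nonempty (Fin r) := by
    by_contra h
    rw [not_nonempty_iff] at h
    have := hsum 0
    simp at this
  obtain ⟨i0⟩ := hr
  set W : (Fin B → Fin r) → ℝ := fun c => ∏ b : Fin B, F b (c b) with hW
  have hW0 : ∀ c, 0 ≤ W c := fun c => prod_nonneg fun b _ => hF _ _
  have hW1 : ∑ c, W c = 1 := by
    have := sum_weight (B := B) F (fun _ _ => 1)
    simp only [prod_const_one, mul_one, hsum] at this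
    exact this
  have hmono : ∀ c : Fin B → Fin r, (mono k (B * L) (blk (ext i0 c) L) : ℝ) =
      ∑ p ∈ AP k (B * L), (if p ∈ monoSet k (B * L) (blk (ext i0 c) L) then (1 : ℝ) else 0) := by
    intro c
    rw [← sum_filter, sum_const, nsmul_eq_mul, mul_one, mono]
    congr 2
    ext p
    rw [mem_filter]
    exact ⟨fun h => ⟨by rw [mem_monoSet] at h; rw [mem_AP]; exact h.1, h⟩, fun h => h.2⟩
  have htot : ∑ c, W c * (mono k (B * L) (blk (ext i0 c) L) : ℝ) = expect k B L F := by
    simp_rw [hmono, mul_sum]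
    rw [sum_comm]
    unfold expect
    refine sum_congr rfl fun p hp => ?_
    have h1 : ∀ c : Fin B → Fin r,
        W c * (if p ∈ monoSet k (B * L) (blk (ext i0 c) L) then (1 : ℝ) else 0) =
        ∑ i, W c * ∏ b : Fin B, (if (b : ℕ) ∈ blocks k L p ∧ c b ≠ i then (0 : ℝ) else 1) := by
      intro c
      rw [mono_indicator hk i0 c hp, mul_sum]
    simp_rw [h1]
    rw [sum_comm]
    refine sum_congr rfl fun i _ => ?_
    have h2 := sum_weight (B := B) F
      (fun b i' => if b ∈ blocks k L p ∧ i' ≠ i then (0 : ℝ) else 1)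
    rw [h2]
    have h3 : ∀ b ∈ range B, ∑ i', F b i' * (if b ∈ blocks k L p ∧ i' ≠ i then (0 : ℝ) else 1) =
        if b ∈ blocks k L p then F b i else 1 := by
      intro b _
      by_cases hb : b ∈ blocks k L p
      · rw [if_pos hb, sum_eq_single i]
        · simp
        · intro i' _ hi'
          simp [hb, hi']
        · intro h
          exact absurd (mem_univ _) h
      · simp [hb, hsum]
    rw [prod_congr rfl h3, prod_ite, prod_const_one, mul_one]
    refine prod_congr ?_ fun _ _ => rfl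
    ext b
    rw [mem_filter, mem_range]
    exact ⟨fun h => h.2, fun h => ⟨blocks_lt hp h, h⟩⟩
  by_contra hcon
  push Not at hcon
  have h4 : ∑ c, W c * expect k B L F < ∑ c, W c * (mono k (B * L) (blk (ext i0 c) L) : ℝ) := by
    refine sum_lt_sum (fun c _ => mul_le_mul_of_nonneg_left (hcon _).le (hW0 c)) ?_
    obtain ⟨c, _, hc⟩ : ∃ c ∈ (univ : Finset (Fin B → Fin r)), 0 < W c := by
      by_contra h
      push Not at h
      have : ∑ c, W c ≤ 0 := sum_nonpos h
      linarith
    exact ⟨c, mem_univ _, mul_lt_mul_of_pos_left (hcon _) hc⟩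
  rw [htot, ← sum_mul, hW1, one_mul] at h4
  exact lt_irrefl _ h4

/-- the value for a progression all of whose terms are in different blocks -/
noncomputable def val {r : ℕ} (k L : ℕ) (F : ℕ → Fin r → ℝ) (p : ℕ × ℕ) : ℝ :=
  ∑ i, ∏ j ∈ range k, F ((p.1 + j * p.2) / L) i

theorem expect_le {r k B L : ℕ} (hk : 2 ≤ k) (hL : 0 < L) (F : ℕ → Fin r → ℝ)
    (hF : ∀ b i, 0 ≤ F b i) (hsum : ∀ b, ∑ i, F b i = 1) :
    expect k B L F ≤ ∑ p ∈ AP k (B * L), val k L F p + (B * L : ℕ) * L := by
  classical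
  have hF1 : ∀ b i, F b i ≤ 1 := by
    intro b i
    rw [← hsum b]
    exact single_le_sum (fun i _ => hF b i) (mem_univ i)
  have hval0 : ∀ p, 0 ≤ val k L F p := fun p =>
    sum_nonneg fun i _ => prod_nonneg fun j _ => hF _ _
  have h1 : ∀ p ∈ AP k (B * L), ∑ i, ∏ b ∈ blocks k L p, F b i ≤
      val k L F p + (if p.2 < L then 1 else 0) := by
    intro p _
    by_cases h : p.2 < L
    · rw [if_pos h]
      have h2 : ∑ i, ∏ b ∈ blocks k L p, F b i ≤ ∑ i, F (p.1 / L) i := by
        refine sum_le_sum fun i _ => ?_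
        have h0 : p.1 / L ∈ blocks k L p := by
          simp only [blocks, mem_image, mem_range]
          exact ⟨0, by omega, by simp⟩
        rw [← mul_prod_erase _ _ h0]
        have : ∏ x ∈ (blocks k L p).erase (p.1 / L), F x i ≤ 1 :=
          prod_le_one (fun _ _ => hF _ _) (fun _ _ => hF1 _ _)
        nlinarith [hF (p.1 / L) i]
      rw [hsum] at h2
      linarith [hval0 p]
    · rw [if_neg h, add_zero]
      unfold val blocks
      refine (sum_congr rfl fun i _ => ?_).le
      rw [prod_image]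
      intro j _ l _ hjl
      simp only at hjl
      push Not at h
      by_contra hne
      rcases Nat.lt_or_gt_of_ne hne with hlt | hlt
      · have : p.1 + j * p.2 + L ≤ p.1 + l * p.2 := by
          have : (j + 1) * p.2 ≤ l * p.2 := Nat.mul_le_mul_right _ hlt
          nlinarith
        have h5 : (p.1 + j * p.2 + L) / L ≤ (p.1 + l * p.2) / L := Nat.div_le_div_right this
        rw [Nat.add_div_right _ hL] at h5
        omega
      · have : p.1 + l * p.2 + L ≤ p.1 + j * p.2 := by
          have : (l + 1) * p.2 ≤ j * p.2 := Nat.mul_le_mul_right _ hlt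
          nlinarith
        have h5 : (p.1 + l * p.2 + L) / L ≤ (p.1 + j * p.2) / L := Nat.div_le_div_right this
        rw [Nat.add_div_right _ hL] at h5
        omega
  unfold expect
  refine (sum_le_sum h1).trans ?_
  rw [sum_add_distrib]
  refine add_le_add le_rfl ?_
  rw [← sum_filter, sum_const, nsmul_eq_mul, mul_one]
  have : ((AP k (B * L)).filter (fun p => p.2 < L)).card ≤ (range (B * L) ×ˢ range L).card := by
    refine card_le_card ?_
    intro p hp
    rw [mem_filter, mem_AP] at hp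
    rw [mem_product, mem_range, mem_range]
    exact ⟨hp.1.1.1, hp.2⟩
  rw [card_product, card_range, card_range] at this
  exact_mod_cast this

end Pool.Agent.D0H9.BR
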