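import Mathlib

/-!
Expansion of `∏ (ρ + ε g_j) + ∏ (ρ - ε g_j)` to second order.
-/

set_option autoImplicit false

namespace Pool.Agent.D0H9.BR

open Finset

/-- first elementary symmetric sum -/
noncomputable def e1 (k : ℕ) (g : ℕ → ℝ) : ℝ := ∑ j ∈ range k, g j

/-- second elementary symmetric sum -/
noncomputable def e2 (k : ℕ) (g : ℕ → ℝ) : ℝ := ∑ l ∈ range k, ∑ j ∈ range l, g j * g l

theorem e1_succ (k : ℕ) (g : ℕ → ℝ) : e1 (k + 1) g = e1 k g + g k := sum_range_succ _ _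

theorem e2_succ (k : ℕ) (g : ℕ → ℝ) : e2 (k + 1) g = e2 k g + e1 k g * g k := by
  rw [e2, sum_range_succ, ← sum_mul]
  rfl

theorem abs_e1 (k : ℕ) (g : ℕ → ℝ) (hg : ∀ j, |g j| ≤ 1) : |e1 k g| ≤ k := by
  refine (abs_sum_le_sum_abs _ _).trans ?_
  refine (sum_le_sum fun j _ => hg j).trans ?_
  simp

theorem abs_e2 (k : ℕ) (g : ℕ → ℝ) (hg : ∀ j, |g j| ≤ 1) : |e2 k g| ≤ (k : ℝ) ^ 2 := by
  induction k with
  | zero => simp [e2]
  | succ k ih =>
    rw [e2_succ]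
    have h1 := abs_e1 k g hg
    have h2 : |e1 k g * g k| ≤ k := by
      rw [abs_mul]
      have := hg k
      have h3 := abs_nonneg (e1 k g)
      have h4 := abs_nonneg (g k)
      have h5 : (0 : ℝ) ≤ k := Nat.cast_nonneg _
      nlinarith
    have h6 := abs_add_le (e2 k g) (e1 k g * g k)
    have h5 : (0 : ℝ) ≤ k := Nat.cast_nonneg _
    push_cast
    nlinarith

theorem expand (k : ℕ) : ∃ c : ℝ, 0 ≤ c ∧ ∀ (ρ ε : ℝ) (g : ℕ → ℝ), 0 ≤ ρ → ρ ≤ 1 → 0 ≤ ε → ε ≤ 1 →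
    (∀ j, |g j| ≤ 1) →
    |(∏ j ∈ range k, (ρ + ε * g j)) + (∏ j ∈ range k, (ρ - ε * g j)) - 2 * ρ ^ k
      - 2 * ε ^ 2 * (ρ ^ (k - 2) * e2 k g)| ≤ c * ε ^ 4 ∧
    |(∏ j ∈ range k, (ρ + ε * g j)) - (∏ j ∈ range k, (ρ - ε * g j))
      - 2 * ε * (ρ ^ (k - 1) * e1 k g)| ≤ c * ε ^ 3 := by
  induction k with
  | zero =>
    refine ⟨0, le_rfl, fun ρ ε g _ _ _ _ _ => ?_⟩
    constructor
    · simp [e2]
      norm_num
    · simp [e1]
  | succ k ih =>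
    obtain ⟨c, hc, ih⟩ := ih
    refine ⟨2 * c + 2 * (k : ℝ) ^ 2, by positivity, fun ρ ε g hρ0 hρ1 hε0 hε1 hg => ?_⟩
    obtain ⟨h1, h2⟩ := ih ρ ε g hρ0 hρ1 hε0 hε1 hg
    rw [prod_range_succ, prod_range_succ]
    set A := ∏ j ∈ range k, (ρ + ε * g j)
    set A' := ∏ j ∈ range k, (ρ - ε * g j)
    have hgk := hg k
    have m1 : ρ * (ρ ^ (k - 2) * e2 k g) = ρ ^ (k + 1 - 2) * e2 k g := by
      rcases Nat.lt_or_ge k 2 with h | h
      · have : e2 k g = 0 := by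
          interval_cases k
          · simp [e2]
          · simp [e2]
        rw [this]; ring
      · have : k + 1 - 2 = (k - 2) + 1 := by omega
        rw [this, pow_succ]; ring
    have m2 : ρ * (ρ ^ (k - 1) * e1 k g) = ρ ^ k * e1 k g := by
      rcases Nat.eq_zero_or_pos k with h | h
      · subst h; simp [e1]
      · have : k = (k - 1) + 1 := by omega
        conv_rhs => rw [this, pow_succ]
        rw [← this]; ring
    have hsub : k + 1 - 1 = k := rfl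
    have hsub2 : k + 1 - 2 = k - 1 := by omega
    set R1 := A + A' - 2 * ρ ^ k - 2 * ε ^ 2 * (ρ ^ (k - 2) * e2 k g) with hR1
    set R2 := A - A' - 2 * ε * (ρ ^ (k - 1) * e1 k g) with hR2
    have hε3 : 0 ≤ ε ^ 3 := by positivity
    have hε4 : 0 ≤ ε ^ 4 := by positivity
    have e43 : ε ^ 4 ≤ ε ^ 3 := by
      have : ε ^ 4 = ε ^ 3 * ε := by ring
      rw [this]; nlinarith
    have aR1 := abs_nonneg R1
    have aR2 := abs_nonneg R2
    have ag := abs_nonneg (g k)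
    constructor
    · have key : A * (ρ + ε * g k) + A' * (ρ - ε * g k) - 2 * ρ ^ (k + 1)
          - 2 * ε ^ 2 * (ρ ^ (k + 1 - 2) * e2 (k + 1) g) = ρ * R1 + ε * g k * R2 := by
        rw [e2_succ, mul_add (ρ ^ (k + 1 - 2)), ← m1, hR1, hR2, hsub2]
        ring
      rw [key]
      refine (abs_add_le _ _).trans ?_
      rw [abs_mul, abs_mul, abs_mul, abs_of_nonneg hρ0, abs_of_nonneg hε0]
      have t1 : ρ * |R1| ≤ c * ε ^ 4 := by nlinarith
      have t2 : ε * |g k| * |R2| ≤ c * ε ^ 4 := by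
        calc ε * |g k| * |R2| ≤ ε * 1 * (c * ε ^ 3) := by gcongr
          _ = c * ε ^ 4 := by ring
      nlinarith [sq_nonneg (k : ℝ)]
    · have key : A * (ρ + ε * g k) - A' * (ρ - ε * g k)
          - 2 * ε * (ρ ^ (k + 1 - 1) * e1 (k + 1) g) =
          ρ * R2 + 2 * ε ^ 3 * g k * (ρ ^ (k - 2) * e2 k g) + ε * g k * R1 := by
        rw [e1_succ, hsub, mul_add (ρ ^ k), ← m2, hR1, hR2]
        ring
      rw [key]
      refine (abs_add_three _ _ _).trans ?_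
      have t1 : |ρ * R2| ≤ c * ε ^ 3 := by
        rw [abs_mul, abs_of_nonneg hρ0]; nlinarith
      have t2 : |ε * g k * R1| ≤ c * ε ^ 3 := by
        rw [abs_mul, abs_mul, abs_of_nonneg hε0]
        calc ε * |g k| * |R1| ≤ 1 * 1 * (c * ε ^ 4) := by gcongr
          _ ≤ c * ε ^ 3 := by nlinarith
      have t3 : |2 * ε ^ 3 * g k * (ρ ^ (k - 2) * e2 k g)| ≤ 2 * (k : ℝ) ^ 2 * ε ^ 3 := by
        rw [abs_mul (2 * ε ^ 3 * g k), abs_mul (2 * ε ^ 3), abs_mul (ρ ^ (k - 2)),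
          abs_of_nonneg (by positivity : (0 : ℝ) ≤ 2 * ε ^ 3),
          abs_of_nonneg (by positivity : (0 : ℝ) ≤ ρ ^ (k - 2))]
        have h3 := abs_e2 k g hg
        have h4 : ρ ^ (k - 2) ≤ 1 := pow_le_one₀ hρ0 hρ1
        calc 2 * ε ^ 3 * |g k| * (ρ ^ (k - 2) * |e2 k g|)
            ≤ 2 * ε ^ 3 * 1 * (1 * (k : ℝ) ^ 2) := by gcongr
          _ = 2 * (k : ℝ) ^ 2 * ε ^ 3 := by ring
      linarith

end Pool.Agent.D0H9.BR
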