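import Mathlib
import Pool.Agent.D0H9.BR.Scale
import Pool.Agent.D0H9.BR.Expand

/-!
The quadratic form of the progressions is negative at a combination of three intervals near the
left end.
-/

set_option autoImplicit false

namespace Pool.Agent.D0H9.BR

open Finset

/-- the number of the progressions with `j`-th term in `[A, A + w)` and `l`-th term in
`[A', A' + w)` -/
def cnt (k n j l A A' w : ℕ) : ℕ :=
  ((AP k n).filter (fun p => (A ≤ p.1 + j * p.2 ∧ p.1 + j * p.2 < A + w) ∧
    (A' ≤ p.1 + l * p.2 ∧ p.1 + l * p.2 < A' + w))).card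

/-- the multiples of `q` in `[m, m + w)` -/
theorem card_mult (N q m w : ℕ) (hq : 0 < q) :
    (((range N).filter (fun d => m ≤ q * d ∧ q * d < m + w)).card : ℝ) ≤ w / q + 1 ∧
    (m + w ≤ N →
      (w : ℝ) / q - 1 ≤ ((range N).filter (fun d => m ≤ q * d ∧ q * d < m + w)).card) := by
  have hq' : (0 : ℝ) < q := by exact_mod_cast hq
  set c := (m + (q - 1)) / q with hc
  set e := (m + w + (q - 1)) / q with he
  have hiff : ∀ x d : ℕ, x ≤ q * d ↔ (x + (q - 1)) / q ≤ d := by
    intro x d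
    rw [← Nat.lt_succ_iff (n := d), Nat.div_lt_iff_lt_mul hq, Nat.succ_eq_add_one, add_mul, one_mul,
      mul_comm d q]
    omega
  have hce : c ≤ e := Nat.div_le_div_right (by omega)
  have r1 := Nat.div_add_mod (m + (q - 1)) q
  have r2 := Nat.div_add_mod (m + w + (q - 1)) q
  have r3 := Nat.mod_lt (m + (q - 1)) hq
  have r4 := Nat.mod_lt (m + w + (q - 1)) hq
  rw [← hc] at r1
  rw [← he] at r2
  have s1 : q * e ≤ q * c + w + (q - 1) := by omega
  have s2 : q * c + w ≤ q * e + (q - 1) := by omega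
  have s1' : (q : ℝ) * e ≤ q * c + w + q := by
    have : q * e ≤ q * c + w + q := by omega
    exact_mod_cast this
  have s2' : (q : ℝ) * c + w ≤ q * e + q := by
    have : q * c + w ≤ q * e + q := by omega
    exact_mod_cast this
  constructor
  · have : (range N).filter (fun d => m ≤ q * d ∧ q * d < m + w) ⊆ Ico c e := by
      intro d hd
      simp only [mem_filter, mem_range] at hd
      rw [mem_Ico]
      refine ⟨(hiff m d).1 hd.2.1, ?_⟩
      by_contra h
      push Not at h
      have := (hiff (m + w) d).2 h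
      omega
    have h2 := card_le_card this
    rw [Nat.card_Ico] at h2
    have h3 : (((range N).filter (fun d => m ≤ q * d ∧ q * d < m + w)).card : ℝ) ≤ (e : ℝ) - c := by
      rw [← Nat.cast_sub hce]
      exact_mod_cast h2
    refine h3.trans ?_
    rw [← sub_le_iff_le_add, le_div_iff₀ hq']
    nlinarith
  · intro hN
    have : Ico c e ⊆ (range N).filter (fun d => m ≤ q * d ∧ q * d < m + w) := by
      intro d hd
      rw [mem_Ico] at hd
      simp only [mem_filter, mem_range]
      have h1 := (hiff m d).2 hd.1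
      have h2 : q * d < m + w := by
        by_contra h
        push Not at h
        have := (hiff (m + w) d).1 h
        omega
      have h3 : d ≤ q * d := Nat.le_mul_of_pos_left _ hq
      exact ⟨by omega, h1, h2⟩
    have h2 := card_le_card this
    rw [Nat.card_Ico] at h2
    have h3 : (e : ℝ) - c ≤ ((range N).filter (fun d => m ≤ q * d ∧ q * d < m + w)).card := by
      rw [← Nat.cast_sub hce]
      exact_mod_cast h2
    refine le_trans ?_ h3
    rw [sub_le_iff_le_add, div_le_iff₀ hq']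
    nlinarith

/-- general upper bound: sum over the `j`-th term -/
theorem cnt_le (k n j l A A' w : ℕ) (hjl : j < l) :
    cnt k n j l A A' w ≤ ∑ x ∈ Ico A (A + w),
      ((range n).filter (fun d => 1 ≤ d ∧ A' ≤ x + (l - j) * d ∧ x + (l - j) * d < A' + w)).card := by
  classical
  rw [← card_sigma]
  refine card_le_card_of_injOn (fun p => (⟨p.1 + j * p.2, p.2⟩ : (_ : ℕ) × ℕ)) ?_ ?_
  · intro p hp
    simp only [coe_filter, mem_AP, Set.mem_ofPred_eq] at hp
    simp only [coe_sigma, Set.mem_sigma_iff, coe_Ico, Set.mem_Ico, coe_filter, mem_range,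
      Set.mem_ofPred_eq]
    have h : p.1 + j * p.2 + (l - j) * p.2 = p.1 + l * p.2 := by
      rw [add_assoc, ← add_mul]
      congr 2
      omega
    rw [h]
    exact ⟨hp.2.1, hp.1.1.2, hp.1.2.1, hp.2.2⟩
  · intro p _ q _ hpq
    simp only [Sigma.mk.injEq, heq_eq_eq] at hpq
    obtain ⟨h1, h2⟩ := hpq
    rw [h2] at h1
    exact Prod.ext (by omega) h2

/-- general lower bound, when all the progressions in question stay inside -/
theorem le_cnt (k n j l A A' w : ℕ) (hjl : j < l)
    (hin : ∀ x d : ℕ, A ≤ x → x < A + w → A' ≤ x + (l - j) * d → x + (l - j) * d < A' + w →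
      j * d ≤ x ∧ x - j * d + (k - 1) * d < n) :
    ∑ x ∈ Ico A (A + w),
      ((range n).filter (fun d => 1 ≤ d ∧ A' ≤ x + (l - j) * d ∧
        x + (l - j) * d < A' + w)).card ≤ cnt k n j l A A' w := by
  classical
  rw [← card_sigma]
  refine card_le_card_of_injOn (fun s => (s.1 - j * s.2, s.2)) ?_ ?_
  · intro s hs
    simp only [coe_sigma, Set.mem_sigma_iff, coe_Ico, Set.mem_Ico, coe_filter, mem_range,
      Set.mem_ofPred_eq] at hs
    simp only [coe_filter, mem_AP, Set.mem_ofPred_eq]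
    obtain ⟨⟨h1, h2⟩, h3, h4, h5, h6⟩ := hs
    obtain ⟨h7, h8⟩ := hin s.1 s.2 h1 h2 h5 h6
    have h9 : s.1 - j * s.2 + j * s.2 = s.1 := by omega
    have h10 : s.1 - j * s.2 + l * s.2 = s.1 + (l - j) * s.2 := by
      have : l * s.2 = j * s.2 + (l - j) * s.2 := by
        rw [← add_mul]
        congr 1
        omega
      omega
    rw [h9, h10]
    exact ⟨⟨⟨by omega, h3⟩, h4, h8⟩, ⟨h1, h2⟩, h5, h6⟩
  · intro s hs t ht hst
    simp only [coe_sigma, Set.mem_sigma_iff, coe_Ico, Set.mem_Ico, coe_filter, mem_range,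
      Set.mem_ofPred_eq] at hs ht
    simp only [Prod.mk.injEq] at hst
    obtain ⟨h1, h2⟩ := hst
    have h7 := (hin s.1 s.2 hs.1.1 hs.1.2 hs.2.2.2.1 hs.2.2.2.2).1
    have h8 := (hin t.1 t.2 ht.1.1 ht.1.2 ht.2.2.2.1 ht.2.2.2.2).1
    rw [h2] at h1 h7
    have : s.1 = t.1 := by omega
    exact Sigma.ext this (by rw [h2])

/-- two intervals in the right order -/
theorem cnt_le_of_lt (k n j l A A' w : ℕ) (hjl : j < l) (hA : A + w ≤ A') :
    (cnt k n j l A A' w : ℝ) ≤ w * (w / (l - j : ℕ) + 1) := by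
  have h := cnt_le k n j l A A' w hjl
  have h' : (cnt k n j l A A' w : ℝ) ≤ ∑ x ∈ Ico A (A + w),
      (((range n).filter (fun d => 1 ≤ d ∧ A' ≤ x + (l - j) * d ∧
        x + (l - j) * d < A' + w)).card : ℝ) := by exact_mod_cast h
  refine h'.trans ?_
  have : ∀ x ∈ Ico A (A + w), (((range n).filter (fun d => 1 ≤ d ∧ A' ≤ x + (l - j) * d ∧
        x + (l - j) * d < A' + w)).card : ℝ) ≤ w / (l - j : ℕ) + 1 := by
    intro x hx
    rw [mem_Ico] at hx
    refine le_trans ?_ (card_mult n (l - j) (A' - x) w (by omega)).1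
    have : (range n).filter (fun d => 1 ≤ d ∧ A' ≤ x + (l - j) * d ∧ x + (l - j) * d < A' + w) ⊆
        (range n).filter (fun d => A' - x ≤ (l - j) * d ∧ (l - j) * d < A' - x + w) := by
      intro d hd
      simp only [mem_filter, mem_range] at hd ⊢
      omega
    exact_mod_cast card_le_card this
  refine (sum_le_sum this).trans ?_
  rw [sum_const, nsmul_eq_mul, Nat.card_Ico, Nat.add_sub_cancel_left]

theorem le_cnt_of_lt (k n j l A A' w : ℕ) (hjl : j < l) (hA : A + w ≤ A') (hn : A' + w ≤ n)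
    (hin : ∀ x d : ℕ, A ≤ x → x < A + w → A' ≤ x + (l - j) * d → x + (l - j) * d < A' + w →
      j * d ≤ x ∧ x - j * d + (k - 1) * d < n) :
    (w : ℝ) * (w / (l - j : ℕ) - 1) ≤ cnt k n j l A A' w := by
  have h := le_cnt k n j l A A' w hjl hin
  have h' : ∑ x ∈ Ico A (A + w),
      (((range n).filter (fun d => 1 ≤ d ∧ A' ≤ x + (l - j) * d ∧
        x + (l - j) * d < A' + w)).card : ℝ) ≤ (cnt k n j l A A' w : ℝ) := by exact_mod_cast h
  refine le_trans ?_ h'
  have : ∀ x ∈ Ico A (A + w), (w : ℝ) / (l - j : ℕ) - 1 ≤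
      (((range n).filter (fun d => 1 ≤ d ∧ A' ≤ x + (l - j) * d ∧
        x + (l - j) * d < A' + w)).card : ℝ) := by
    intro x hx
    rw [mem_Ico] at hx
    refine le_trans ((card_mult n (l - j) (A' - x) w (by omega)).2 (by omega)) ?_
    have : (range n).filter (fun d => A' - x ≤ (l - j) * d ∧ (l - j) * d < A' - x + w) ⊆
        (range n).filter (fun d => 1 ≤ d ∧ A' ≤ x + (l - j) * d ∧ x + (l - j) * d < A' + w) := by
      intro d hd
      simp only [mem_filter, mem_range] at hd ⊢
      have : 1 ≤ d := by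
        by_contra h0
        have : d = 0 := by omega
        subst this
        simp at hd
        omega
      omega
    exact_mod_cast card_le_card this
  refine le_trans ?_ (sum_le_sum this)
  rw [sum_const, nsmul_eq_mul, Nat.card_Ico, Nat.add_sub_cancel_left]

/-- one interval -/
theorem cnt_same (k n j l A w : ℕ) (hjl : j < l) :
    (cnt k n j l A A w : ℝ) ≤ ((w : ℝ) ^ 2 + w) / (2 * (l - j : ℕ)) := by
  have hq : 0 < l - j := by omega
  have hq' : (0 : ℝ) < (l - j : ℕ) := by exact_mod_cast hq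
  have h := cnt_le k n j l A A w hjl
  have h' : (cnt k n j l A A w : ℝ) ≤ ∑ x ∈ Ico A (A + w),
      (((range n).filter (fun d => 1 ≤ d ∧ A ≤ x + (l - j) * d ∧
        x + (l - j) * d < A + w)).card : ℝ) := by exact_mod_cast h
  refine h'.trans ?_
  rw [sum_Ico_eq_sum_range, Nat.add_sub_cancel_left]
  have : ∀ i ∈ range w, (((range n).filter (fun d => 1 ≤ d ∧ A ≤ A + i + (l - j) * d ∧
        A + i + (l - j) * d < A + w)).card : ℝ) ≤ ((w : ℝ) - i) / (l - j : ℕ) := by
    intro i hi
    rw [mem_range] at hi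
    have h1 : (range n).filter (fun d => 1 ≤ d ∧ A ≤ A + i + (l - j) * d ∧
        A + i + (l - j) * d < A + w) ⊆ Ioc 0 ((w - i) / (l - j)) := by
      intro d hd
      simp only [mem_filter, mem_range] at hd
      rw [mem_Ioc]
      refine ⟨by omega, ?_⟩
      rw [Nat.le_div_iff_mul_le hq, mul_comm]
      omega
    have h2 := card_le_card h1
    rw [Nat.card_Ioc, Nat.sub_zero] at h2
    have h3 : (((range n).filter (fun d => 1 ≤ d ∧ A ≤ A + i + (l - j) * d ∧
        A + i + (l - j) * d < A + w)).card : ℝ) ≤ (((w - i) / (l - j) : ℕ) : ℝ) := by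
      exact_mod_cast h2
    refine h3.trans (Nat.cast_div_le.trans ?_)
    rw [Nat.cast_sub hi.le]
  refine (sum_le_sum this).trans ?_
  rw [← sum_div, div_le_div_iff₀ hq' (by positivity), sum_sub_distrib, sum_const, card_range,
    nsmul_eq_mul]
  have hs : (∑ i ∈ range w, (i : ℝ)) * 2 = w * (w - 1) := by
    have := Finset.sum_range_id_mul_two w
    rcases Nat.eq_zero_or_pos w with h0 | h0
    · subst h0; simp
    · have h2 : ((∑ i ∈ range w, i : ℕ) : ℝ) * 2 = (w * (w - 1 : ℕ) : ℕ) := by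
        exact_mod_cast this
      rw [Nat.cast_sum, Nat.cast_mul, Nat.cast_sub h0] at h2
      simpa using h2
  nlinarith

theorem cnt_crude (k n j l A w : ℕ) (hjl : j < l) : cnt k n j l A A w ≤ w * w := by
  have : ((AP k n).filter (fun p => (A ≤ p.1 + j * p.2 ∧ p.1 + j * p.2 < A + w) ∧
    (A ≤ p.1 + l * p.2 ∧ p.1 + l * p.2 < A + w))).card ≤ (Ico A (A + w) ×ˢ Ico A (A + w)).card := by
    refine card_le_card_of_injOn (fun p => (p.1 + j * p.2, p.1 + l * p.2)) ?_ ?_
    · intro p hp
      simp only [coe_filter, Set.mem_ofPred_eq] at hp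
      simp only [coe_product, Set.mem_prod, coe_Ico, Set.mem_Ico]
      exact hp.2
    · intro p hp q hq hpq
      simp only [Prod.mk.injEq] at hpq
      obtain ⟨h1, h2⟩ := hpq
      have h3 : (l - j) * p.2 = (l - j) * q.2 := by
        rw [Nat.sub_mul, Nat.sub_mul]
        omega
      have h4 : p.2 = q.2 := Nat.eq_of_mul_eq_mul_left (by omega) h3
      rw [h4] at h1
      exact Prod.ext (by omega) h4
  refine this.trans ?_
  simp

/-- the last interval is too far away -/
theorem cnt_zero (k n j l A A' w : ℕ) (hk : 2 ≤ k) (hj : 1 ≤ j) (hl : l ≤ k - 1)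
    (hA : (k - 1) * (A + w) ≤ A') : cnt k n j l A A' w = 0 := by
  rw [cnt, card_eq_zero, filter_eq_empty_iff]
  rintro p hp ⟨⟨h1, h2⟩, h3, h4⟩
  have h5 : l * p.2 ≤ (k - 1) * (j * p.2) := by
    rw [← mul_assoc]
    refine Nat.mul_le_mul_right _ (hl.trans ?_)
    exact Nat.le_mul_of_pos_right _ hj
  have h6 : p.1 ≤ (k - 1) * p.1 := Nat.le_mul_of_pos_left _ (by omega)
  have h7 : p.1 + l * p.2 ≤ (k - 1) * (p.1 + j * p.2) := by
    rw [mul_add]
    omega
  have h8 : (k - 1) * (p.1 + j * p.2) < (k - 1) * (A + w) :=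
    Nat.mul_lt_mul_of_pos_left h2 (by omega)
  omega

/-- the number of progressions -/
theorem card_AP_le (k n : ℕ) (hk : 2 ≤ k) : ((AP k n).card : ℝ) ≤ (n : ℝ) ^ 2 / (2 * (k - 1)) := by
  classical
  have hk1 : (0 : ℝ) < (k : ℝ) - 1 := by
    have : (2 : ℝ) ≤ k := by exact_mod_cast hk
    linarith
  set D := (n - 1) / (k - 1) with hD
  have h1 : (AP k n).card ≤ ∑ d ∈ Ioc 0 D, (n - (k - 1) * d) := by
    have : ∑ d ∈ Ioc 0 D, (n - (k - 1) * d) = ((Ioc 0 D).sigma (fun d => range (n - (k - 1) * d))).card := by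
      rw [card_sigma]
      simp
    rw [this]
    refine card_le_card_of_injOn (fun p => (⟨p.2, p.1⟩ : (_ : ℕ) × ℕ)) ?_ ?_
    · intro p hp
      rw [mem_coe, mem_AP] at hp
      simp only [coe_sigma, Set.mem_sigma_iff, coe_Ioc, Set.mem_Ioc, coe_range, Set.mem_Iio]
      refine ⟨⟨by omega, ?_⟩, by omega⟩
      rw [hD, Nat.le_div_iff_mul_le (by omega), mul_comm]
      omega
    · intro p _ q _ hpq
      simp only [Sigma.mk.injEq, heq_eq_eq] at hpq
      exact Prod.ext hpq.2 hpq.1
  have hDle : (k - 1) * D ≤ n - 1 := Nat.mul_div_le _ _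
  have h2 : ((∑ d ∈ Ioc 0 D, (n - (k - 1) * d) : ℕ) : ℝ) =
      ∑ d ∈ Ioc 0 D, ((n : ℝ) - (k - 1) * d) := by
    rw [Nat.cast_sum]
    refine sum_congr rfl fun d hd => ?_
    rw [mem_Ioc] at hd
    have h3 : (k - 1) * d ≤ (k - 1) * D := Nat.mul_le_mul_left _ hd.2
    rw [Nat.cast_sub (by omega), Nat.cast_mul, Nat.cast_sub (by omega)]
    simp
  have h3 : ∑ d ∈ Ioc 0 D, ((n : ℝ) - (k - 1) * d) = n * D - (k - 1) * (D * (D + 1) / 2) := by
    clear_value D
    clear h1 h2 hDle hD
    induction D with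
    | zero => simp
    | succ D ih =>
      rw [← Finset.insert_Ioc_right_eq_Ioc_add_one (Nat.zero_le D), sum_insert (by simp), ih]
      push_cast
      ring
  have h4 : ((AP k n).card : ℝ) ≤ n * D - (k - 1) * (D * (D + 1) / 2) := by
    rw [← h3, ← h2]
    exact_mod_cast h1
  refine h4.trans ?_
  rw [le_div_iff₀ (by positivity)]
  have hD0 : (0 : ℝ) ≤ D := Nat.cast_nonneg _
  nlinarith [sq_nonneg ((n : ℝ) - (k - 1) * D), mul_nonneg (mul_nonneg hk1.le hk1.le) hD0]

end Pool.Agent.D0H9.BR
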