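import Mathlib
import Pool.Agent.D0H9.BR.Scale

/-!
Block colourings: the number of monochromatic progressions is `δ n ^ 2 + O(n)`.
-/

set_option autoImplicit false

namespace Pool.Agent.D0H9.BR

open Finset Filter Topology

theorem limit_exists (M : ℕ → ℝ) (C : ℝ) (hC : 0 ≤ C)
    (h : ∀ t L : ℕ, 0 < t → 0 < L → |M (t * L) - (t : ℝ) ^ 2 * M L| ≤ C * (t : ℝ) ^ 2 * L) :
    ∃ δ : ℝ, ∀ L : ℕ, 0 < L → |M L - δ * (L : ℝ) ^ 2| ≤ C * L := by
  set a : ℕ → ℝ := fun L => M L / (L : ℝ) ^ 2 with ha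
  have h1 : ∀ t L : ℕ, 0 < t → 0 < L → |a (t * L) - a L| ≤ C / L := by
    intro t L ht hL
    have ht' : (0 : ℝ) < t := by exact_mod_cast ht
    have hL' : (0 : ℝ) < L := by exact_mod_cast hL
    have : a (t * L) - a L = (M (t * L) - (t : ℝ) ^ 2 * M L) / ((t : ℝ) ^ 2 * (L : ℝ) ^ 2) := by
      simp only [ha]
      push_cast
      field_simp
    rw [this, abs_div, abs_of_pos (by positivity : (0 : ℝ) < (t : ℝ) ^ 2 * (L : ℝ) ^ 2),
      div_le_div_iff₀ (by positivity) hL']
    have := h t L ht hL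
    nlinarith
  have h2 : ∀ s L : ℕ, 0 < s → 0 < L → |a s - a L| ≤ C / s + C / L := by
    intro s L hs hL
    have e1 := h1 L s hL hs
    have e2 := h1 s L hs hL
    rw [mul_comm] at e1
    rw [abs_sub_comm] at e1
    calc |a s - a L| = |(a s - a (s * L)) + (a (s * L) - a L)| := by ring_nf
      _ ≤ |a s - a (s * L)| + |a (s * L) - a L| := abs_add_le _ _
      _ ≤ C / s + C / L := add_le_add e1 e2
  have hcau : CauchySeq a := by
    rw [Metric.cauchySeq_iff]
    intro ε hε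
    obtain ⟨N, hN⟩ := exists_nat_gt (2 * C / ε)
    refine ⟨N + 1, fun m hm n hn => ?_⟩
    rw [Real.dist_eq]
    have hm' : (N : ℝ) + 1 ≤ m := by exact_mod_cast hm
    have hn' : (N : ℝ) + 1 ≤ n := by exact_mod_cast hn
    have hN0 : (0 : ℝ) ≤ N := Nat.cast_nonneg N
    have e3 : C / m ≤ C / (N + 1) := div_le_div_of_nonneg_left hC (by positivity) hm'
    have e4 : C / n ≤ C / (N + 1) := div_le_div_of_nonneg_left hC (by positivity) hn'
    have e5 : 2 * C / (N + 1) < ε := by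
      rw [div_lt_iff₀ (by positivity)]
      rw [div_lt_iff₀ hε] at hN
      nlinarith
    have := h2 m n (by omega) (by omega)
    calc |a m - a n| ≤ C / m + C / n := this
      _ ≤ C / (N + 1) + C / (N + 1) := add_le_add e3 e4
      _ = 2 * C / (N + 1) := by ring
      _ < ε := e5
  obtain ⟨δ, hδ⟩ := cauchySeq_tendsto_of_complete hcau
  refine ⟨δ, fun L hL => ?_⟩
  have hL' : (0 : ℝ) < L := by exact_mod_cast hL
  have h3 : |δ - a L| ≤ C / L := by
    have t1 : Tendsto (fun s : ℕ => |a s - a L|) atTop (𝓝 |δ - a L|) :=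
      (hδ.sub_const _).abs
    have t2 : Tendsto (fun s : ℕ => C / (s : ℝ) + C / L) atTop (𝓝 (0 + C / L)) :=
      (tendsto_const_div_atTop_nhds_zero_nat C).add_const _
    rw [zero_add] at t2
    refine le_of_tendsto_of_tendsto t1 t2 ?_
    filter_upwards [eventually_gt_atTop 0] with s hs
    exact h2 s L hs hL
  have h4 : M L - δ * (L : ℝ) ^ 2 = -(δ - a L) * (L : ℝ) ^ 2 := by
    simp only [ha]
    field_simp
    ring
  rw [h4, abs_mul, abs_neg, abs_of_pos (by positivity : (0 : ℝ) < (L : ℝ) ^ 2)]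
  calc |δ - a L| * (L : ℝ) ^ 2 ≤ C / L * (L : ℝ) ^ 2 := by gcongr
    _ = C * L := by field_simp

/-- the constant of the scaling lemma -/
def scaleConst (k B : ℕ) : ℝ := B + k * (B * (B * k))

theorem blk_limit {α : Type} [DecidableEq α] {k B : ℕ} (hk : 0 < k) (c : ℕ → α) :
    ∃ δ : ℝ, ∀ L : ℕ, 0 < L →
      |(mono k (B * L) (blk c L) : ℝ) - δ * (L : ℝ) ^ 2| ≤ scaleConst k B * L := by
  refine limit_exists (fun L => (mono k (B * L) (blk c L) : ℝ)) (scaleConst k B)
    (by unfold scaleConst; positivity) ?_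
  intro t L ht hL
  obtain ⟨h1, h2⟩ := scale (B := B) (L := L) hk ht c
  have h1' : (mono k (B * (t * L)) (blk c (t * L)) : ℝ) ≤
      t ^ 2 * mono k (B * L) (blk c L) + t ^ 2 * (B * L + k * (B * L * (B * k))) := by
    exact_mod_cast h1
  have h2' : (t : ℝ) ^ 2 * mono k (B * L) (blk c L) ≤
      mono k (B * (t * L)) (blk c (t * L)) + t ^ 2 * (B * L + k * (B * L * (B * k))) := by
    exact_mod_cast h2
  rw [abs_le]
  unfold scaleConst
  constructor <;> nlinarith

theorem mono_mono {α : Type} [DecidableEq α] {k m n : ℕ} (χ : ℕ → α) (hmn : m ≤ n) :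
    mono k m χ ≤ mono k n χ := by
  refine card_le_card ?_
  intro p hp
  rw [mem_monoSet] at hp ⊢
  refine ⟨⟨⟨by omega, by omega⟩, hp.1.2.1, by omega⟩, hp.2⟩

theorem mono_le_add {α : Type} [DecidableEq α] {k m n : ℕ} (hk : 2 ≤ k) (χ : ℕ → α) :
    mono k n χ ≤ mono k m χ + n * (n - m) := by
  classical
  have h : monoSet k n χ ⊆ monoSet k m χ ∪
      (monoSet k n χ).filter (fun p => m ≤ p.1 + (k - 1) * p.2) := by
    intro p hp
    rw [mem_union, mem_filter]
    by_cases h : m ≤ p.1 + (k - 1) * p.2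
    · exact Or.inr ⟨hp, h⟩
    · left
      rw [mem_monoSet] at hp ⊢
      have : p.2 ≤ (k - 1) * p.2 := Nat.le_mul_of_pos_left _ (by omega)
      refine ⟨⟨⟨by omega, by omega⟩, hp.1.2.1, by omega⟩, hp.2⟩
  refine (card_le_card h).trans ((card_union_le _ _).trans (Nat.add_le_add_left ?_ _))
  have : ((monoSet k n χ).filter (fun p => m ≤ p.1 + (k - 1) * p.2)).card ≤
      (range n ×ˢ Ico m n).card := by
    refine card_le_card_of_injOn (fun p => (p.2, p.1 + (k - 1) * p.2)) ?_ ?_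
    · intro p hp
      simp only [coe_filter, mem_monoSet, Set.mem_ofPred_eq] at hp
      simp only [coe_product, Set.mem_prod, coe_range, Set.mem_Iio, coe_Ico, Set.mem_Ico]
      exact ⟨hp.1.1.1.2, hp.2, hp.1.1.2.2⟩
    · intro p hp q hq hpq
      simp only [Prod.mk.injEq] at hpq
      obtain ⟨h1, h2⟩ := hpq
      rw [h1] at h2
      exact Prod.ext (by omega) h1
  refine this.trans ?_
  simp

theorem mono_le_sq {α : Type} [DecidableEq α] (k n : ℕ) (χ : ℕ → α) : mono k n χ ≤ n * n := by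
  refine (card_le_card (t := range n ×ˢ range n) ?_).trans (by simp)
  intro p hp
  rw [mem_monoSet] at hp
  simp only [mem_product, mem_range]
  exact hp.1.1

/-- block colourings of all intervals -/
theorem all_n {α : Type} [DecidableEq α] {k B : ℕ} (hk : 2 ≤ k) (hB : 0 < B) (c : ℕ → α) (δ C : ℝ)
    (hC : 0 ≤ C)
    (h : ∀ L : ℕ, 0 < L → |(mono k (B * L) (blk c L) : ℝ) - δ * (L : ℝ) ^ 2| ≤ C * L) :
    ∃ C' : ℝ, ∀ n : ℕ, ∃ χ : ℕ → α, |(mono k n χ : ℝ) - δ / (B : ℝ) ^ 2 * (n : ℝ) ^ 2| ≤ C' * n := by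
  have hB' : (1 : ℝ) ≤ B := by exact_mod_cast hB
  set e := δ / (B : ℝ) ^ 2 with he
  have hδ : δ = e * (B : ℝ) ^ 2 := by rw [he]; field_simp
  refine ⟨B + C + 2 * |e| * B, fun n => ⟨blk c (n / B), ?_⟩⟩
  set L := n / B with hL
  have hn := Nat.div_add_mod n B
  have hρ := Nat.mod_lt n hB
  rw [← hL] at hn
  set ρ := n % B with hρd
  have hn' : (n : ℝ) = B * L + ρ := by exact_mod_cast hn.symm
  have hρ' : (ρ : ℝ) ≤ B := by exact_mod_cast hρ.le
  have hρ0 : (0 : ℝ) ≤ ρ := Nat.cast_nonneg _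
  have hL0 : (0 : ℝ) ≤ L := Nat.cast_nonneg _
  have hn0 : (0 : ℝ) ≤ n := Nat.cast_nonneg _
  have h1 : |(mono k n (blk c L) : ℝ) - mono k (B * L) (blk c L)| ≤ B * n := by
    have e1 := mono_le_add (m := B * L) (n := n) hk (blk c L)
    have e2 := mono_mono (k := k) (blk c L) (show B * L ≤ n by omega)
    have e3 : n - B * L = ρ := by omega
    rw [e3] at e1
    have e1' : (mono k n (blk c L) : ℝ) ≤ mono k (B * L) (blk c L) + n * ρ := by exact_mod_cast e1
    have e2' : (mono k (B * L) (blk c L) : ℝ) ≤ mono k n (blk c L) := by exact_mod_cast e2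
    rw [abs_of_nonneg (by linarith)]
    nlinarith
  have h2 : |(mono k (B * L) (blk c L) : ℝ) - δ * (L : ℝ) ^ 2| ≤ C * n := by
    rcases Nat.eq_zero_or_pos L with h0 | h0
    · have : mono k (B * L) (blk c L) = 0 := by
        have := mono_le_sq k (B * L) (blk c L)
        rw [h0] at this ⊢
        simpa using this
      rw [this, h0]
      simp only [Nat.cast_zero, ne_eq, OfNat.ofNat_ne_zero, not_false_eq_true, zero_pow, mul_zero,
        sub_zero, abs_zero]
      positivity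
    · refine (h L h0).trans ?_
      have : (L : ℝ) ≤ n := by
        rw [hn']; nlinarith
      gcongr
  have h3 : |δ * (L : ℝ) ^ 2 - e * (n : ℝ) ^ 2| ≤ 2 * |e| * B * n := by
    have : δ * (L : ℝ) ^ 2 - e * (n : ℝ) ^ 2 = -(e * (ρ * (n + B * L))) := by
      rw [hδ, hn']; ring
    rw [this, abs_neg, abs_mul, abs_of_nonneg (a := (ρ : ℝ) * (n + B * L)) (by positivity)]
    have hBL : (B : ℝ) * L ≤ n := by rw [hn']; linarith
    have : (ρ : ℝ) * (n + B * L) ≤ B * (2 * n) := by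
      apply mul_le_mul hρ' (by linarith) (by positivity) (by positivity)
    calc |e| * (ρ * (n + B * L)) ≤ |e| * (B * (2 * n)) := by gcongr
      _ = 2 * |e| * B * n := by ring
  calc |(mono k n (blk c L) : ℝ) - e * (n : ℝ) ^ 2|
      = |((mono k n (blk c L) : ℝ) - mono k (B * L) (blk c L)) +
          ((mono k (B * L) (blk c L) : ℝ) - δ * (L : ℝ) ^ 2) +
          (δ * (L : ℝ) ^ 2 - e * (n : ℝ) ^ 2)| := by ring_nf
    _ ≤ B * n + C * n + 2 * |e| * B * n :=
        (abs_add_three _ _ _).trans (add_le_add (add_le_add h1 h2) h3)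
    _ = (B + C + 2 * |e| * B) * n := by ring

end Pool.Agent.D0H9.BR
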