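import Mathlib
import Pool.Agent.D0H9.BR.Kernel

/-!
The sum of the quadratic form over all progressions.
-/

set_option autoImplicit false

namespace Pool.Agent.D0H9.BR

open Finset

/-- the test function, on the scale of the macro blocks -/
noncomputable def gm (k : ℕ) (x0 : ℝ) (m : ℕ) : ℝ :=
  if m = k + 3 then -x0 else if m = (k - 1) * (k + 3) - 1 then 1
  else if m = (k - 1) * (k + 4) then -1 else 0

theorem abs_gm (k : ℕ) (x0 : ℝ) (h0 : 0 ≤ x0) (h1 : x0 ≤ 1) (m : ℕ) : |gm k x0 m| ≤ 1 := by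
  unfold gm
  split_ifs
  · rw [abs_neg, abs_of_nonneg h0]; exact h1
  · simp
  · simp
  · simp

/-- indicator sums are counts -/
theorem sum_ind (k n j l m m' w : ℕ) (hw : 0 < w) :
    ∑ p ∈ AP k n, (if (p.1 + j * p.2) / w = m then (1 : ℝ) else 0) *
      (if (p.1 + l * p.2) / w = m' then (1 : ℝ) else 0) = cnt k n j l (m * w) (m' * w) w := by
  rw [cnt, card_filter, Nat.cast_sum]
  refine sum_congr rfl fun p _ => ?_
  have h : ∀ x m : ℕ, x / w = m ↔ (m * w ≤ x ∧ x < m * w + w) := by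
    intro x m
    rw [Nat.div_eq_iff hw]
    omega
  rw [ite_mul, one_mul, zero_mul]
  simp only [h]
  split_ifs <;> simp_all

theorem order_facts {k : ℕ} (hk : 3 ≤ k) :
    k + 3 + 1 ≤ (k - 1) * (k + 3) - 1 ∧ (k - 1) * (k + 3) - 1 + 1 ≤ (k - 1) * (k + 4) ∧
    (k - 1) * (k + 1) ≤ (k - 1) * (k + 3) - 1 ∧
    (k - 1) * (k + 4) + 1 - ((k - 1) * (k + 3) - 1) = k + 1 := by
  obtain ⟨s, rfl⟩ : ∃ s, k = s + 3 := ⟨k - 3, by omega⟩
  have e1 : s + 3 - 1 = s + 2 := rfl
  rw [e1]
  have a1 : (s + 2) * (s + 3 + 3) = s * s + 8 * s + 12 := by ring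
  have a2 : (s + 2) * (s + 3 + 4) = s * s + 9 * s + 14 := by ring
  have a3 : (s + 2) * (s + 3 + 1) = s * s + 6 * s + 8 := by ring
  rw [a1, a2, a3]
  omega

theorem pointwise {k : ℕ} (hk : 3 ≤ k) (x0 : ℝ) {X Y : ℕ} (hXY : X ≤ Y) :
    gm k x0 X * gm k x0 Y =
      x0 ^ 2 * ((if X = k + 3 then (1 : ℝ) else 0) * (if Y = k + 3 then (1 : ℝ) else 0))
      - x0 * ((if X = k + 3 then (1 : ℝ) else 0) *
          (if Y = (k - 1) * (k + 3) - 1 then (1 : ℝ) else 0))
      + x0 * ((if X = k + 3 then (1 : ℝ) else 0) * (if Y = (k - 1) * (k + 4) then (1 : ℝ) else 0))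
      + ((if X = (k - 1) * (k + 3) - 1 then (1 : ℝ) else 0) *
          (if Y = (k - 1) * (k + 3) - 1 then (1 : ℝ) else 0))
      + ((if X = (k - 1) * (k + 4) then (1 : ℝ) else 0) *
          (if Y = (k - 1) * (k + 4) then (1 : ℝ) else 0))
      - ((if X = (k - 1) * (k + 3) - 1 then (1 : ℝ) else 0) *
          (if Y = (k - 1) * (k + 4) then (1 : ℝ) else 0)) := by
  obtain ⟨h1, h2, -, -⟩ := order_facts hk
  unfold gm
  generalize (k - 1) * (k + 3) - 1 = m1 at *
  generalize (k - 1) * (k + 4) = m2 at *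
  generalize k + 3 = m0 at *
  have n1 : m0 ≠ m1 := by omega
  have n2 : m0 ≠ m2 := by omega
  have n3 : m1 ≠ m2 := by omega
  by_cases a0 : X = m0 <;> by_cases a1 : X = m1 <;> by_cases a2 : X = m2 <;>
  by_cases b0 : Y = m0 <;> by_cases b1 : Y = m1 <;> by_cases b2 : Y = m2 <;>
  first
  | (exfalso; omega)
  | (simp only [a0, a1, a2, b0, b1, b2, if_true, if_false, n1, n1.symm, n2, n2.symm, n3, n3.symm]
     ring)

/-- the sum for one pair of indices -/
theorem pair_le {k : ℕ} (hk : 3 ≤ k) (x0 : ℝ) (h0 : 0 ≤ x0) (h1 : x0 ≤ 1) {n w j l : ℕ} (hw : 0 < w)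
    (hn : (k - 1) * ((k - 1) * (k + 4) + 1) * w ≤ n) (hjl : j < l) (hl : l < k) :
    ∑ p ∈ AP k n, gm k x0 ((p.1 + j * p.2) / w) * gm k x0 ((p.1 + l * p.2) / w) ≤
      x0 ^ 2 * w ^ 2 + 4 * w - (if j = 1 ∧ l = k - 1 then x0 * (w : ℝ) ^ 2 / (k - 2) else 0) := by
  obtain ⟨o1, o2, o3, o4⟩ := order_facts hk
  set P := k + 3 with hP
  set m1 := (k - 1) * (k + 3) - 1 with hm1
  set m2 := (k - 1) * (k + 4) with hm2
  have hw1 : (1 : ℝ) ≤ w := by exact_mod_cast hw
  have hsum : ∑ p ∈ AP k n, gm k x0 ((p.1 + j * p.2) / w) * gm k x0 ((p.1 + l * p.2) / w) =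
      x0 ^ 2 * cnt k n j l (P * w) (P * w) w - x0 * cnt k n j l (P * w) (m1 * w) w
      + x0 * cnt k n j l (P * w) (m2 * w) w + cnt k n j l (m1 * w) (m1 * w) w
      + cnt k n j l (m2 * w) (m2 * w) w - cnt k n j l (m1 * w) (m2 * w) w := by
    rw [← sum_ind k n j l P P w hw, ← sum_ind k n j l P m1 w hw, ← sum_ind k n j l P m2 w hw,
      ← sum_ind k n j l m1 m1 w hw, ← sum_ind k n j l m2 m2 w hw, ← sum_ind k n j l m1 m2 w hw,
      mul_sum, mul_sum, mul_sum, ← sum_sub_distrib, ← sum_add_distrib, ← sum_add_distrib,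
      ← sum_add_distrib, ← sum_sub_distrib]
    refine sum_congr rfl fun p _ => ?_
    refine pointwise hk x0 (Nat.div_le_div_right ?_)
    have : j * p.2 ≤ l * p.2 := Nat.mul_le_mul_right _ hjl.le
    omega
  rw [hsum]
  have q1 : (1 : ℝ) ≤ (l - j : ℕ) := by
    have : 1 ≤ l - j := by omega
    exact_mod_cast this
  have qpos : (0 : ℝ) < (l - j : ℕ) := by linarith
  -- the two diagonal terms and the mixed term
  have c00 : (cnt k n j l (P * w) (P * w) w : ℝ) ≤ w ^ 2 := by
    have := cnt_crude k n j l (P * w) w hjl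
    rw [sq]
    exact_mod_cast this
  have c11 := cnt_same k n j l (m1 * w) w hjl
  have c22 := cnt_same k n j l (m2 * w) w hjl
  have hm2n : m2 * w + w ≤ n := by
    refine le_trans ?_ hn
    have e : m2 * w + w = 1 * (m2 + 1) * w := by ring
    rw [e]
    exact Nat.mul_le_mul_right _ (Nat.mul_le_mul_right _ (by omega))
  have last : ∀ x d : ℕ, j * d ≤ x → x + (l - j) * d < m2 * w + w →
      x - j * d + (k - 1) * d < n := by
    intro x d _ h4
    have h5 : d ≤ (l - j) * d := Nat.le_mul_of_pos_left _ (by omega)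
    have h6 : (k - 1) * d ≤ (k - 1) * ((l - j) * d) := Nat.mul_le_mul_left _ h5
    have h7 : x ≤ (k - 1) * x := Nat.le_mul_of_pos_left _ (by omega)
    have h8 : (k - 1) * (x + (l - j) * d) < (k - 1) * (m2 * w + w) :=
      Nat.mul_lt_mul_of_pos_left h4 (by omega)
    have h9 : (k - 1) * (m2 * w + w) = (k - 1) * (m2 + 1) * w := by ring
    rw [mul_add] at h8
    omega
  have c12 := le_cnt_of_lt k n j l (m1 * w) (m2 * w) w hjl
    (by have := Nat.mul_le_mul_right w o2; rw [add_mul, one_mul] at this; exact this) hm2n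
    (by
      intro x d h1 h2 h3 h4
      have hjd : j * d ≤ x := by
        have h5 : d ≤ (l - j) * d := Nat.le_mul_of_pos_left _ (by omega)
        have h6 : j * d ≤ (k - 1) * d := Nat.mul_le_mul_right _ (by omega)
        have h7 : (l - j) * d ≤ (k + 1) * w := by
          have h8 : (k + 1) * w = m2 * w + w - m1 * w := by
            rw [← o4, Nat.sub_mul, add_mul, one_mul]
          omega
        have h9 : (k - 1) * d ≤ (k - 1) * ((k + 1) * w) :=
          Nat.mul_le_mul_left _ (h5.trans h7)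
        have h10 : (k - 1) * ((k + 1) * w) ≤ m1 * w := by
          rw [← mul_assoc]
          exact Nat.mul_le_mul_right _ o3
        omega
      exact ⟨hjd, last x d hjd h4⟩)
  have hdiag : (cnt k n j l (m1 * w) (m1 * w) w : ℝ) + cnt k n j l (m2 * w) (m2 * w) w
      - cnt k n j l (m1 * w) (m2 * w) w ≤ 2 * w := by
    have e1 : ((w : ℝ) ^ 2 + w) / (2 * (l - j : ℕ)) + ((w : ℝ) ^ 2 + w) / (2 * (l - j : ℕ)) =
        w * (w / (l - j : ℕ)) + w / (l - j : ℕ) := by
      field_simp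
      ring
    have e2 : (w : ℝ) / (l - j : ℕ) ≤ w := div_le_self (by positivity) q1
    nlinarith
  have hx00 : x0 ^ 2 * (cnt k n j l (P * w) (P * w) w : ℝ) ≤ x0 ^ 2 * w ^ 2 := by gcongr
  have c01nn : (0 : ℝ) ≤ cnt k n j l (P * w) (m1 * w) w := Nat.cast_nonneg _
  have hwx : x0 * w ≤ w := by nlinarith
  have hPm1 : P * w + w ≤ m1 * w := by
    have := Nat.mul_le_mul_right w o1
    rw [add_mul, one_mul] at this
    exact this
  have hPm2 : P * w + w ≤ m2 * w := by
    refine hPm1.trans (Nat.mul_le_mul_right _ (by omega))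
  have hm1n : m1 * w + w ≤ n := by
    have := Nat.mul_le_mul_right w o2
    rw [add_mul, one_mul] at this
    omega
  have hm12 : m1 * w + w ≤ m2 * w + w := by
    have := Nat.mul_le_mul_right w o2
    rw [add_mul, one_mul] at this
    omega
  by_cases hj : j = 0
  · subst hj
    rw [if_neg (by omega)]
    have c01 := le_cnt_of_lt k n 0 l (P * w) (m1 * w) w hjl hPm1 hm1n
      (by
        intro x d _ _ _ h4
        exact ⟨by omega, last x d (by omega) (by omega)⟩)
    have c02 := cnt_le_of_lt k n 0 l (P * w) (m2 * w) w hjl hPm2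
    have h3 : x0 * (cnt k n 0 l (P * w) (m2 * w) w : ℝ) - x0 * cnt k n 0 l (P * w) (m1 * w) w ≤
        2 * w := by
      have : (cnt k n 0 l (P * w) (m2 * w) w : ℝ) - cnt k n 0 l (P * w) (m1 * w) w ≤ 2 * w := by
        nlinarith
      rw [← mul_sub]
      nlinarith
    linarith
  · have c02 : cnt k n j l (P * w) (m2 * w) w = 0 := by
      refine cnt_zero k n j l (P * w) (m2 * w) w (by omega) (by omega) (by omega) ?_
      rw [hm2, hP]
      have : (k - 1) * ((k + 3) * w + w) = (k - 1) * (k + 4) * w := by ring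
      omega
    rw [c02, Nat.cast_zero, mul_zero, add_zero]
    split_ifs with hc
    · obtain ⟨rfl, rfl⟩ := hc
      have c01 := le_cnt_of_lt k n 1 (k - 1) (P * w) (m1 * w) w hjl hPm1 hm1n
        (by
          intro x d h1 h2 h3 h4
          have hjd : 1 * d ≤ x := by
            have e1 : m1 * w + w = (k - 1) * P * w := by
              have : m1 + 1 = (k - 1) * P := by
                have : 0 < (k - 1) * (k + 3) := Nat.mul_pos (by omega) (by omega)
                rw [hm1, hP]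
                omega
              rw [← this]; ring
            have e2 : (k - 1) * P * w = P * w + (k - 1 - 1) * (P * w) := by
              have : k - 1 = 1 + (k - 1 - 1) := by omega
              conv_lhs => rw [this]
              ring
            have e3 : (k - 1 - 1) * d < (k - 1 - 1) * (P * w) := by omega
            have := Nat.lt_of_mul_lt_mul_left e3
            omega
          exact ⟨hjd, last x d hjd (by omega)⟩)
      have e4 : ((k - 1 - 1 : ℕ) : ℝ) = (k : ℝ) - 2 := by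
        have : k - 1 - 1 = k - 2 := by omega
        rw [this, Nat.cast_sub (by omega)]
        simp
      rw [e4] at c01
      have h3 : x0 * (w : ℝ) ^ 2 / (k - 2) - w ≤ x0 * cnt k n 1 (k - 1) (P * w) (m1 * w) w := by
        have : x0 * (w * (w / ((k : ℝ) - 2) - 1)) ≤ x0 * cnt k n 1 (k - 1) (P * w) (m1 * w) w := by
          gcongr
        have e5 : x0 * (w * (w / ((k : ℝ) - 2) - 1)) = x0 * (w : ℝ) ^ 2 / (k - 2) - x0 * w := by
          ring
        linarith
      linarith
    · have : 0 ≤ x0 * (cnt k n j l (P * w) (m1 * w) w : ℝ) := by positivity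
      linarith

theorem quad_le {k : ℕ} (hk : 3 ≤ k) (x0 : ℝ) (h0 : 0 ≤ x0) (h1 : x0 ≤ 1) {n w : ℕ} (hw : 0 < w)
    (hn : (k - 1) * ((k - 1) * (k + 4) + 1) * w ≤ n) :
    ∑ p ∈ AP k n, e2 k (fun j => gm k x0 ((p.1 + j * p.2) / w)) ≤
      (k : ℝ) ^ 2 * (x0 ^ 2 * w ^ 2 + 4 * w) - x0 * (w : ℝ) ^ 2 / (k - 2) := by
  unfold e2
  rw [sum_comm]
  have h : ∀ l ∈ range k, ∑ p ∈ AP k n, ∑ j ∈ range l,
      gm k x0 ((p.1 + j * p.2) / w) * gm k x0 ((p.1 + l * p.2) / w) ≤
      (k : ℝ) * (x0 ^ 2 * w ^ 2 + 4 * w) -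
        (if l = k - 1 then x0 * (w : ℝ) ^ 2 / (k - 2) else 0) := by
    intro l hl
    rw [mem_range] at hl
    rw [sum_comm]
    have h2 : ∀ j ∈ range l, ∑ p ∈ AP k n,
        gm k x0 ((p.1 + j * p.2) / w) * gm k x0 ((p.1 + l * p.2) / w) ≤
        x0 ^ 2 * w ^ 2 + 4 * w - (if j = 1 ∧ l = k - 1 then x0 * (w : ℝ) ^ 2 / (k - 2) else 0) :=
      fun j hj => pair_le hk x0 h0 h1 hw hn (mem_range.1 hj) hl
    refine (sum_le_sum h2).trans ?_
    rw [sum_sub_distrib, sum_const, card_range, nsmul_eq_mul]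
    have hlk : (l : ℝ) ≤ k := by exact_mod_cast hl.le
    have hpos : (0 : ℝ) ≤ x0 ^ 2 * w ^ 2 + 4 * w := by positivity
    refine sub_le_sub (by gcongr) ?_
    by_cases hlk1 : l = k - 1
    · rw [if_pos hlk1]
      have : (1 : ℕ) ∈ range l := by rw [mem_range]; omega
      rw [sum_eq_single_of_mem 1 this]
      · rw [if_pos ⟨rfl, hlk1⟩]
      · intro b _ hb
        rw [if_neg (by omega)]
    · rw [if_neg hlk1]
      refine le_of_eq (Eq.symm (sum_eq_zero fun b _ => ?_))
      rw [if_neg (by omega)]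
  refine (sum_le_sum h).trans ?_
  rw [sum_sub_distrib, sum_const, card_range, nsmul_eq_mul]
  rw [sum_eq_single_of_mem (k - 1) (by rw [mem_range]; omega)]
  · rw [if_pos rfl]
    refine le_of_eq ?_
    ring
  · intro b _ hb
    rw [if_neg hb]

end Pool.Agent.D0H9.BR
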