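import Mathlib
import Pool.Agent.D0H9.BR.Quad
import Pool.Agent.D0H9.BR.Avg
import Pool.Agent.D0H9.BR.Limit

/-!
Block colourings with fewer monochromatic progressions than random colourings.
-/

set_option autoImplicit false

namespace Pool.Agent.D0H9.BR

open Finset

/-- the probabilities of the colours in a block -/
noncomputable def Fw (k r : ℕ) (x0 ε : ℝ) (t : ℕ) (b : ℕ) (i : Fin r) : ℝ :=
  1 / r + (if (i : ℕ) = 0 then ε * gm k x0 (b / t) else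
    if (i : ℕ) = 1 then -(ε * gm k x0 (b / t)) else 0)

theorem sum_two {r : ℕ} (hr : 2 ≤ r) (a b c : ℝ) :
    ∑ i : Fin r, (if (i : ℕ) = 0 then a else if (i : ℕ) = 1 then b else c) =
      a + b + (r - 2) * c := by
  obtain ⟨s, rfl⟩ : ∃ s, r = s + 2 := ⟨r - 2, by omega⟩
  rw [Fin.sum_univ_succ, Fin.sum_univ_succ]
  simp
  ring

theorem sum_Fw {k r : ℕ} (hr : 2 ≤ r) (x0 ε : ℝ) (t b : ℕ) : ∑ i, Fw k r x0 ε t b i = 1 := by
  unfold Fw
  rw [sum_add_distrib, sum_two hr, sum_const, card_univ, Fintype.card_fin, nsmul_eq_mul]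
  have : (r : ℝ) ≠ 0 := by
    have : r ≠ 0 := by omega
    exact_mod_cast this
  field_simp
  ring

theorem Fw_nonneg {k r : ℕ} (x0 ε : ℝ) (h0 : 0 ≤ x0) (h1 : x0 ≤ 1) (hε : 0 ≤ ε) (hεr : ε ≤ 1 / r)
    (t b : ℕ) (i : Fin r) : 0 ≤ Fw k r x0 ε t b i := by
  have h := abs_gm k x0 h0 h1 (b / t)
  rw [abs_le] at h
  unfold Fw
  split_ifs
  · nlinarith
  · nlinarith
  · linarith

theorem val_le {k r : ℕ} (hr : 2 ≤ r) {cE : ℝ}
    (hE : ∀ (ρ ε : ℝ) (g : ℕ → ℝ), 0 ≤ ρ → ρ ≤ 1 → 0 ≤ ε → ε ≤ 1 →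
    (∀ j, |g j| ≤ 1) →
    |(∏ j ∈ range k, (ρ + ε * g j)) + (∏ j ∈ range k, (ρ - ε * g j)) - 2 * ρ ^ k
      - 2 * ε ^ 2 * (ρ ^ (k - 2) * e2 k g)| ≤ cE * ε ^ 4)
    (x0 ε : ℝ) (h0 : 0 ≤ x0) (h1 : x0 ≤ 1) (hε : 0 ≤ ε) (hεr : ε ≤ 1 / r) (t L : ℕ) (p : ℕ × ℕ) :
    val k L (Fw k r x0 ε t) p ≤ r * (1 / (r : ℝ)) ^ k +
      2 * ε ^ 2 * ((1 / (r : ℝ)) ^ (k - 2) * e2 k (fun j => gm k x0 ((p.1 + j * p.2) / (L * t)))) +
      cE * ε ^ 4 := by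
  have hr1 : (1 : ℝ) ≤ r := by
    have : 1 ≤ r := by omega
    exact_mod_cast this
  have hρ1 : 1 / (r : ℝ) ≤ 1 := by
    rw [div_le_one (by linarith)]
    exact hr1
  have hρ0 : 0 ≤ 1 / (r : ℝ) := by positivity
  set g : ℕ → ℝ := fun j => gm k x0 ((p.1 + j * p.2) / (L * t)) with hg
  have hval : val k L (Fw k r x0 ε t) p =
      (∏ j ∈ range k, (1 / (r : ℝ) + ε * g j)) + (∏ j ∈ range k, (1 / (r : ℝ) - ε * g j)) +
      (r - 2) * (1 / (r : ℝ)) ^ k := by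
    unfold val
    rw [← sum_two hr]
    refine sum_congr rfl fun i _ => ?_
    have hF : ∀ j, Fw k r x0 ε t ((p.1 + j * p.2) / L) i =
        if (i : ℕ) = 0 then 1 / (r : ℝ) + ε * g j else
        if (i : ℕ) = 1 then 1 / (r : ℝ) - ε * g j else 1 / (r : ℝ) := by
      intro j
      simp only [Fw, hg, Nat.div_div_eq_div_mul]
      split_ifs <;> ring
    simp only [hF]
    split_ifs
    · rfl
    · rfl
    · rw [prod_const, card_range]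
  rw [hval]
  have h := hE (1 / (r : ℝ)) ε g hρ0 hρ1 hε (hεr.trans hρ1) (fun j => abs_gm k x0 h0 h1 _)
  rw [abs_le] at h
  linarith [h.2]

/-- the main estimate for the expected number -/
theorem expect_bound {k r : ℕ} (hk : 3 ≤ k) (hr : 2 ≤ r) {cE : ℝ} (hcE : 0 ≤ cE)
    (hE : ∀ (ρ ε : ℝ) (g : ℕ → ℝ), 0 ≤ ρ → ρ ≤ 1 → 0 ≤ ε → ε ≤ 1 →
    (∀ j, |g j| ≤ 1) →
    |(∏ j ∈ range k, (ρ + ε * g j)) + (∏ j ∈ range k, (ρ - ε * g j)) - 2 * ρ ^ k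
      - 2 * ε ^ 2 * (ρ ^ (k - 2) * e2 k g)| ≤ cE * ε ^ 4)
    (x0 ε : ℝ) (hx0 : x0 = 1 / (2 * (k : ℝ) ^ 3)) (hε : 0 ≤ ε) (hεr : ε ≤ 1 / r) {t L : ℕ}
    (ht : 0 < t) (hL : 0 < L) (B0 : ℕ) (hB0 : B0 = (k - 1) * ((k - 1) * (k + 4) + 1)) :
    expect k (B0 * t) L (Fw k r x0 ε t) ≤
      (1 / (r : ℝ)) ^ (k - 1) * ((B0 * t * L : ℝ) ^ 2 / (2 * (k - 1))) +
      2 * ε ^ 2 * ((1 / (r : ℝ)) ^ (k - 2) *
        (-(x0 * (L * t : ℝ) ^ 2 / (2 * k)) + 4 * k ^ 2 * (L * t : ℝ))) +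
      cE * ε ^ 4 * (B0 * t * L : ℝ) ^ 2 + (B0 * t * L : ℝ) * L := by
  have hk3 : (3 : ℝ) ≤ k := by exact_mod_cast hk
  have hk0 : (0 : ℝ) < k := by linarith
  have h0 : 0 ≤ x0 := by rw [hx0]; positivity
  have h1 : x0 ≤ 1 := by
    rw [hx0, div_le_one (by positivity)]
    have : (1 : ℝ) ≤ (k : ℝ) ^ 3 := one_le_pow₀ (by linarith)
    linarith
  have hr0 : (0 : ℝ) < r := by
    have : 0 < r := by omega
    exact_mod_cast this
  have hw : 0 < L * t := Nat.mul_pos hL ht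
  refine (expect_le (by omega) hL _ (Fw_nonneg x0 ε h0 h1 hε hεr t) (sum_Fw hr x0 ε t)).trans ?_
  have hcast : ((B0 * t * L : ℕ) : ℝ) = (B0 * t * L : ℝ) := by push_cast; ring
  rw [hcast]
  refine add_le_add ?_ le_rfl
  refine (sum_le_sum fun p _ => val_le hr hE x0 ε h0 h1 hε hεr t L p).trans ?_
  rw [sum_add_distrib, sum_add_distrib, sum_const, sum_const, nsmul_eq_mul, nsmul_eq_mul,
    ← mul_sum, ← mul_sum]
  have hcard := card_AP_le k (B0 * t * L) (by omega)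
  rw [hcast] at hcard
  have hcard2 : ((AP k (B0 * t * L)).card : ℝ) ≤ (B0 * t * L : ℝ) ^ 2 := by
    refine hcard.trans (div_le_self (by positivity) (by linarith))
  have hq := quad_le hk x0 h0 h1 (n := B0 * t * L) hw (by rw [← hB0]; exact le_of_eq (by ring))
  have hq2 : ∑ p ∈ AP k (B0 * t * L), e2 k (fun j => gm k x0 ((p.1 + j * p.2) / (L * t))) ≤
      -(x0 * (L * t : ℝ) ^ 2 / (2 * k)) + 4 * k ^ 2 * (L * t : ℝ) := by
    refine hq.trans ?_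
    push_cast
    have e1 : (k : ℝ) ^ 2 * (x0 ^ 2 * (L * t : ℝ) ^ 2) = x0 * (L * t : ℝ) ^ 2 / (2 * k) := by
      rw [hx0]
      field_simp
    have e2 : x0 * (L * t : ℝ) ^ 2 / k ≤ x0 * (L * t : ℝ) ^ 2 / (k - 2) := by
      apply div_le_div_of_nonneg_left (by positivity) (by linarith) (by linarith)
    have e3 : x0 * (L * t : ℝ) ^ 2 / k = 2 * (x0 * (L * t : ℝ) ^ 2 / (2 * k)) := by
      field_simp
    nlinarith
  have hρ : (r : ℝ) * (1 / (r : ℝ)) ^ k = (1 / (r : ℝ)) ^ (k - 1) := by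
    obtain ⟨s, rfl⟩ : ∃ s, k = s + 1 := ⟨k - 1, by omega⟩
    rw [Nat.add_sub_cancel, pow_succ]
    field_simp
  rw [hρ]
  have hpow : 0 ≤ (1 / (r : ℝ)) ^ (k - 1) := by positivity
  have hpow2 : 0 ≤ (1 / (r : ℝ)) ^ (k - 2) := by positivity
  refine add_le_add (add_le_add ?_ ?_) ?_
  · rw [mul_comm]
    exact mul_le_mul_of_nonneg_left hcard hpow
  · exact mul_le_mul_of_nonneg_left (mul_le_mul_of_nonneg_left hq2 hpow2) (by positivity)
  · rw [mul_comm]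
    exact mul_le_mul_of_nonneg_left hcard2 (by positivity)

/-- there is a block colouring with density below the random rate -/
theorem exists_block {k r : ℕ} (hk : 3 ≤ k) (hr : 2 ≤ r) :
    ∃ (B : ℕ) (c : ℕ → Fin r) (δ : ℝ), 0 < B ∧
      (∀ L : ℕ, 0 < L →
        |(mono k (B * L) (blk c L) : ℝ) - δ * (L : ℝ) ^ 2| ≤ scaleConst k B * L) ∧
      δ / (B : ℝ) ^ 2 < 1 / (2 * ((k : ℝ) - 1) * (r : ℝ) ^ (k - 1)) := by
  obtain ⟨cE, hcE, hE0⟩ := expand k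
  have hE := fun ρ ε g a b c d e => (hE0 ρ ε g a b c d e).1
  have hk3 : (3 : ℝ) ≤ k := by exact_mod_cast hk
  have hk0 : (0 : ℝ) < k := by linarith
  have hr0 : (0 : ℝ) < r := by
    have : 0 < r := by omega
    exact_mod_cast this
  obtain ⟨B0, hB0⟩ : ∃ B0, B0 = (k - 1) * ((k - 1) * (k + 4) + 1) := ⟨_, rfl⟩
  have hB0pos : 0 < B0 := by
    rw [hB0]
    exact Nat.mul_pos (by omega) (by omega)
  have hB0' : (1 : ℝ) ≤ B0 := by exact_mod_cast hB0pos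
  obtain ⟨x0, hx0⟩ : ∃ x0 : ℝ, x0 = 1 / (2 * (k : ℝ) ^ 3) := ⟨_, rfl⟩
  have hx0pos : 0 < x0 := by rw [hx0]; positivity
  set ρ : ℝ := 1 / r with hρ
  have hρpos : 0 < ρ := by positivity
  have hρ1 : ρ ≤ 1 := by
    rw [hρ, div_le_one hr0]
    have : 1 ≤ r := by omega
    exact_mod_cast this
  set κ : ℝ := ρ ^ (k - 2) * x0 / (k * (B0 : ℝ) ^ 2) with hκ
  have hκpos : 0 < κ := by positivity
  set ε : ℝ := min ρ (κ / (2 * (cE + 1))) with hε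
  have hεpos : 0 < ε := by
    rw [hε]
    exact lt_min hρpos (by positivity)
  have hερ : ε ≤ ρ := min_le_left _ _
  have hε1 : ε ≤ 1 := hερ.trans hρ1
  have hεκ : ε ≤ κ / (2 * (cE + 1)) := min_le_right _ _
  have hcε : cE * ε ^ 4 ≤ ε ^ 2 * κ / 2 := by
    rw [le_div_iff₀ (by positivity)] at hεκ
    have h2 : ε ^ 2 ≤ ε := by nlinarith
    have h3 : cE * ε ^ 2 * 2 ≤ κ := by nlinarith
    have : cE * ε ^ 4 = (cE * ε ^ 2) * ε ^ 2 := by ring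
    rw [this]
    nlinarith [sq_nonneg ε]
  set η : ℝ := ε ^ 2 * κ / 2 with hη
  have hηpos : 0 < η := by positivity
  obtain ⟨t, ht⟩ := exists_nat_gt (4 / η)
  have htpos : 0 < t := by
    have : (0 : ℝ) < t := lt_trans (by positivity) ht
    exact_mod_cast this
  have htr : (0 : ℝ) < t := by exact_mod_cast htpos
  set B := B0 * t with hB
  have hBpos : 0 < B := Nat.mul_pos hB0pos htpos
  have hBr : (B : ℝ) = B0 * t := by rw [hB]; push_cast; ring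
  have hC0 : 0 ≤ scaleConst k B := by unfold scaleConst; positivity
  obtain ⟨L, hL⟩ := exists_nat_gt (4 * (8 * k ^ 2 + scaleConst k B) / η)
  have hLpos : 0 < L := by
    have : (0 : ℝ) < L := lt_of_le_of_lt (by positivity) hL
    exact_mod_cast this
  have hLr : (0 : ℝ) < L := by exact_mod_cast hLpos
  obtain ⟨c, hc⟩ := exists_coloring (B := B) (L := L) (k := k) (by omega) (Fw k r x0 ε t)
    (Fw_nonneg x0 ε hx0pos.le (by
      rw [hx0, div_le_one (by positivity)]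
      have : (1 : ℝ) ≤ (k : ℝ) ^ 3 := one_le_pow₀ (by linarith)
      linarith) hεpos.le hερ t) (sum_Fw hr x0 ε t)
  obtain ⟨δ, hδ⟩ := blk_limit (k := k) (B := B) (by omega) c
  refine ⟨B, c, δ, hBpos, hδ, ?_⟩
  have hb := expect_bound hk hr hcE hE x0 ε hx0 hεpos.le hερ htpos hLpos B0 hB0
  have h1 := (abs_le.1 (hδ L hLpos)).1
  have hBL : (0 : ℝ) < (B0 * t * L : ℝ) ^ 2 := by positivity
  have h2 : δ * (L : ℝ) ^ 2 ≤ expect k B L (Fw k r x0 ε t) + scaleConst k B * L := by linarith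
  have h3 : δ / (B : ℝ) ^ 2 ≤
      (expect k B L (Fw k r x0 ε t) + scaleConst k B * L) / (B0 * t * L : ℝ) ^ 2 := by
    rw [le_div_iff₀ hBL, hBr]
    have : δ / (B0 * t : ℝ) ^ 2 * (B0 * t * L : ℝ) ^ 2 = δ * (L : ℝ) ^ 2 := by
      field_simp
    rw [this]
    exact h2
  refine lt_of_le_of_lt h3 ?_
  rw [div_lt_iff₀ hBL]
  have hrate : (1 / (r : ℝ)) ^ (k - 1) * ((B0 * t * L : ℝ) ^ 2 / (2 * (k - 1))) =
      1 / (2 * ((k : ℝ) - 1) * (r : ℝ) ^ (k - 1)) * (B0 * t * L : ℝ) ^ 2 := by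
    have : (k : ℝ) - 1 ≠ 0 := by linarith
    rw [one_div_pow]
    field_simp
  have hmain : 2 * ε ^ 2 * (ρ ^ (k - 2) * (-(x0 * (L * t : ℝ) ^ 2 / (2 * k)) +
      4 * k ^ 2 * (L * t : ℝ))) + cE * ε ^ 4 * (B0 * t * L : ℝ) ^ 2 + (B0 * t * L : ℝ) * L +
      scaleConst k B * L < 0 := by
    have m1 : 2 * ε ^ 2 * (ρ ^ (k - 2) * (x0 * (L * t : ℝ) ^ 2 / (2 * k))) =
        2 * η * (B0 * t * L : ℝ) ^ 2 := by
      rw [hη, hκ]
      field_simp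
    have m2 : cE * ε ^ 4 * (B0 * t * L : ℝ) ^ 2 ≤ η * (B0 * t * L : ℝ) ^ 2 :=
      mul_le_mul_of_nonneg_right hcε hBL.le
    have m3 : (B0 * t * L : ℝ) * L ≤ η / 4 * (B0 * t * L : ℝ) ^ 2 := by
      rw [div_lt_iff₀ hηpos] at ht
      have e1 : η / 4 * (B0 * t * L : ℝ) ^ 2 = (B0 * t * L : ℝ) * L * (η / 4 * (B0 * t)) := by ring
      rw [e1]
      have e2 : 1 ≤ η / 4 * (B0 * t : ℝ) := by
        have : (t : ℝ) ≤ B0 * t := by nlinarith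
        nlinarith
      have e3 : (0 : ℝ) ≤ (B0 * t * L : ℝ) * L := by positivity
      nlinarith
    have m4 : 2 * ε ^ 2 * (ρ ^ (k - 2) * (4 * k ^ 2 * (L * t : ℝ))) + scaleConst k B * L ≤
        (8 * k ^ 2 + scaleConst k B) * (L * t : ℝ) := by
      have e1 : ρ ^ (k - 2) ≤ 1 := pow_le_one₀ hρpos.le hρ1
      have e2 : ε ^ 2 ≤ 1 := pow_le_one₀ hεpos.le hε1
      have e3 : ε ^ 2 * ρ ^ (k - 2) ≤ 1 := mul_le_one₀ e2 (by positivity) e1
      have e4 : 2 * ε ^ 2 * (ρ ^ (k - 2) * (4 * k ^ 2 * (L * t : ℝ))) =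
          (ε ^ 2 * ρ ^ (k - 2)) * (8 * k ^ 2 * (L * t : ℝ)) := by ring
      have e5 : (ε ^ 2 * ρ ^ (k - 2)) * (8 * k ^ 2 * (L * t : ℝ)) ≤ 1 * (8 * k ^ 2 * (L * t : ℝ)) :=
        mul_le_mul_of_nonneg_right e3 (by positivity)
      have e6 : (1 : ℝ) ≤ t := by exact_mod_cast htpos
      have e7 : scaleConst k B * L ≤ scaleConst k B * (L * t : ℝ) := by
        apply mul_le_mul_of_nonneg_left _ hC0
        nlinarith
      rw [e4]
      linarith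
    have m5 : (8 * k ^ 2 + scaleConst k B) * (L * t : ℝ) < η / 4 * (B0 * t * L : ℝ) ^ 2 := by
      rw [div_lt_iff₀ hηpos] at hL
      have e1 : η / 4 * (B0 * t * L : ℝ) ^ 2 = (η / 4 * L) * ((B0 : ℝ) ^ 2 * t * (L * t)) := by ring
      rw [e1]
      have e2 : 8 * (k : ℝ) ^ 2 + scaleConst k B < η / 4 * L := by linarith
      have e6 : (1 : ℝ) ≤ t := by exact_mod_cast htpos
      have e3 : (L * t : ℝ) ≤ (B0 : ℝ) ^ 2 * t * (L * t) := by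
        have : (1 : ℝ) ≤ (B0 : ℝ) ^ 2 * t := by
          have : (1 : ℝ) ≤ (B0 : ℝ) ^ 2 := one_le_pow₀ hB0'
          nlinarith
        have h0 : (0 : ℝ) ≤ (L * t : ℝ) := by positivity
        nlinarith
      have e4 : (0 : ℝ) < (L * t : ℝ) := by positivity
      have e5 : 0 ≤ 8 * (k : ℝ) ^ 2 + scaleConst k B := by positivity
      calc (8 * k ^ 2 + scaleConst k B) * (L * t : ℝ) < (η / 4 * L) * (L * t : ℝ) :=
            mul_lt_mul_of_pos_right e2 e4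
        _ ≤ (η / 4 * L) * ((B0 : ℝ) ^ 2 * t * (L * t)) :=
            mul_le_mul_of_nonneg_left e3 (by positivity)
    have m6 : 2 * ε ^ 2 * (ρ ^ (k - 2) * (-(x0 * (L * t : ℝ) ^ 2 / (2 * k)) +
        4 * k ^ 2 * (L * t : ℝ))) =
        -(2 * ε ^ 2 * (ρ ^ (k - 2) * (x0 * (L * t : ℝ) ^ 2 / (2 * k)))) +
        2 * ε ^ 2 * (ρ ^ (k - 2) * (4 * k ^ 2 * (L * t : ℝ))) := by ring
    rw [m6, m1]
    nlinarith
  rw [hrate] at hb
  have hBB : expect k B L (Fw k r x0 ε t) = expect k (B0 * t) L (Fw k r x0 ε t) := rfl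
  rw [hBB]
  rw [← hρ] at hb
  linarith

end Pool.Agent.D0H9.BR
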